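import Pool.Agent.X97.IT.Main
import Pool.Agent.X97.SV.Path
set_option autoImplicit false

/-!
# The number of vertices on the path of the shadow vertex rule
-/

namespace Pool.Agent.X97.IT

open Set Pool.Agent.Y644.QS Pool.Agent.H687R2.LLL Pool.Agent.NPC Pool.Agent.X97.SV

variable {m n : ℕ} {A : Fin m → Fin n → ℚ} {b : Fin m → ℚ} {c v : Fin n → ℚ}

/-- The number of vertices on the path. -/
theorem bound (hv : re v ∈ Set.extremePoints ℝ (polyhedron A b)) {s D N : ℕ}
    {x : ℕ → Fin n → ℚ} (hx0 : x 0 = v)
    (hq : ∀ k < N, SV.nxt A b c v (x k) = Sum.inl (x (k + 1)))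
    (hT : Nst (fun i j => (A i j : ℝ)) s D Finset.univ Finset.univ) :
    N + 1 ≤ (2 * (m + n + 2) * 16 ^ s) ^ (18 * (2 * D + 10) ^ (2 * D)) := by
  classical
  have h0 := st0 (c := c) hv
  obtain ⟨p, hp⟩ := exists_params hv hx0 hq
  set dd := SV.dd (crow (inp A b c v)).length (crow (inp A b c v)) (rowsJ (inp A b c v))
    (startV (inp A b c v)) with hdl
  set g : Fin n → ℝ := fun j => (dd.getD j 0 : ℝ) with hg
  set h : Fin n → ℝ := fun j => ((crow (inp A b c v)).getD j 0 : ℝ) with hh
  set L : ℕ → ℝ := fun k => (p k + p (k + 1)) / 2 with hL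
  have hobj : ∀ j k, j < k → k ≤ N → obj c (re (x j)) < obj c (re (x k)) := by
    intro j k hjk
    induction k, hjk using Nat.le_induction with
    | base => intro hk; exact (hp j (by omega)).2.2.2 (by omega)
    | succ k hjk ih => intro hk; exact (ih (by omega)).trans ((hp k (by omega)).2.2.2 (by omega))
  refine pencil_bound (A := fun i j => (A i j : ℝ)) (b := fun i => (b i : ℝ)) (g := g) (h := h)
    hT N L (fun k => re (x k)) (fun j hj k hk hjk => ?_) fun k hk => ?_
  · rcases lt_trichotomy j k with h1 | h1 | h1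
    · have := hobj j k h1 hk
      beta_reduce at hjk
      rw [hjk] at this
      exact absurd this (lt_irrefl _)
    · exact h1
    · have := hobj k j h1 hj
      beta_reduce at hjk
      rw [hjk] at this
      exact absurd this (lt_irrefl _)
  · obtain ⟨i1, i2, i3, -⟩ := hp k hk
    have hvx := i1.vertex
    refine ⟨fun i => hvx.1.1 i, fun j => hvx.1.2 j, fun y hy1 hy2 hne => ?_⟩
    by_contra hcon
    push Not at hcon
    have hy : y ∈ polyhedron A b := ⟨hy1, hy2⟩
    have hk0 : (0 : ℝ) < (startV (inp A b c (x k))).getD n 0 := by exact_mod_cast getD_startV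
    have hval : ∀ z : Fin n → ℝ, dl (g + L k • h) z = ∑ j : Fin n, (dd.getD j 0 : ℝ) * z j +
        L k * ∑ j : Fin n, ((crow (inp A b c v)).getD j 0 : ℝ) * z j := by
      intro z
      rw [dl_add_left, dl_smul_left]
      rfl
    obtain ⟨s, hs⟩ := i1.unique h0 i3 (l := L k) (by simp only [hL]; linarith)
      (by simp only [hL]; linarith) (inC_eN hy) (by
        unfold SV.gd SV.gc
        rw [lv_startV, SV.gn_smul_left, SV.gn_smul_left, gn_eN, gn_eN]
        rw [hval, hval] at hcon
        have h5 := mul_nonneg hk0.le (sub_nonneg.2 hcon)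
        linarith)
    rw [lv_startV, smul_smul, ← map_smul] at hs
    have h6 := (eN length_crow).injective hs
    have h7 := congrArg Prod.snd h6
    have h8 := congrArg Prod.fst h6
    simp only [Prod.smul_snd, Prod.smul_fst, smul_eq_mul, mul_one] at h7 h8
    rw [← h7, one_smul] at h8
    exact hne h8

end Pool.Agent.X97.IT
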