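import Pool.Agent.X97.IT.Row
set_option autoImplicit false

/-!
# Nested structures of rows and columns
-/

namespace Pool.Agent.X97.IT

open Finset Module

variable {m n : ℕ}

/-- The rows, and the rows for the bounds of the variables. -/
def At (A : Fin m → Fin n → ℝ) : Fin m ⊕ (Fin n × Bool) → Fin n → ℝ
  | Sum.inl i => A i
  | Sum.inr (j, true) => Pi.single j 1
  | Sum.inr (j, false) => Pi.single j (-1)

/-- The rows `R`, and the bounds of the columns `X`. -/
def bxs (X : Finset (Fin n)) (R : Finset (Fin m)) : Finset (Fin m ⊕ (Fin n × Bool)) :=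
  R.disjSum (X ×ˢ univ)

/-- Nested structures of rows and columns, with blocks of size at most `s`. -/
inductive Nst (A : Fin m → Fin n → ℝ) (s : ℕ) : ℕ → Finset (Fin n) → Finset (Fin m) → Prop
  | small (k : ℕ) (X : Finset (Fin n)) (R : Finset (Fin m)) : X.card + R.card ≤ s → Nst A s k X R
  | union {k : ℕ} {X₁ X₂ : Finset (Fin n)} {R₁ R₂ : Finset (Fin m)} :
      Nst A s k X₁ R₁ → Nst A s k X₂ R₂ → Disjoint X₁ X₂ → Disjoint R₁ R₂ →
      (∀ i ∈ R₁, ∀ j ∈ X₂, A i j = 0) → (∀ i ∈ R₂, ∀ j ∈ X₁, A i j = 0) →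
      Nst A s k (X₁ ∪ X₂) (R₁ ∪ R₂)
  | row {k : ℕ} {X : Finset (Fin n)} {R : Finset (Fin m)} (r : Fin m) : r ∉ R → Nst A s k X R →
      Nst A s (k + 1) X (insert r R)
  | col {k : ℕ} {X : Finset (Fin n)} {R : Finset (Fin m)} (t : Fin n) : t ∉ X → Nst A s k X R →
      Nst A s (k + 1) (insert t X) R

variable {A : Fin m → Fin n → ℝ} {X X₁ X₂ : Finset (Fin n)} {R R₁ R₂ : Finset (Fin m)}

theorem mem_bxs_inl {i : Fin m} : (Sum.inl i : Fin m ⊕ (Fin n × Bool)) ∈ bxs X R ↔ i ∈ R := by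
  simp [bxs]

theorem mem_bxs_inr {j : Fin n} {s : Bool} :
    (Sum.inr (j, s) : Fin m ⊕ (Fin n × Bool)) ∈ bxs X R ↔ j ∈ X := by
  simp [bxs]

theorem card_bxs : (bxs X R).card = R.card + X.card * 2 := by
  rw [bxs, card_disjSum, card_product, card_univ, Fintype.card_bool]

theorem dl_single (j : Fin n) (s : ℝ) (x : Fin n → ℝ) : dl (Pi.single j s) x = s * x j := by
  rw [dl_apply, sum_eq_single j]
  · simp
  · intro k _ hk; simp [Pi.single_eq_of_ne hk]
  · intro h; exact absurd (mem_univ j) h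

theorem bx_bxs : Bx (At A) X (bxs X R) := by
  intro j hj
  refine ⟨⟨Sum.inr (j, true), mem_bxs_inr.2 hj, fun x => ?_⟩,
    ⟨Sum.inr (j, false), mem_bxs_inr.2 hj, fun x => ?_⟩⟩
  · change dl (Pi.single j 1) x = x j
    rw [dl_single, one_mul]
  · change dl (Pi.single j (-1)) x = - x j
    rw [dl_single]; ring

theorem bxs_union : bxs (X₁ ∪ X₂) (R₁ ∪ R₂) = bxs X₁ R₁ ∪ bxs X₂ R₂ := by
  ext (i | ⟨j, s⟩)
  · rw [mem_union, mem_bxs_inl, mem_bxs_inl, mem_bxs_inl, mem_union]
  · rw [mem_union, mem_bxs_inr, mem_bxs_inr, mem_bxs_inr, mem_union]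

theorem bxs_row (r : Fin m) : bxs X (insert r R) = insert (Sum.inl r) (bxs X R) := by
  ext (i | ⟨j, s⟩)
  · rw [mem_insert, mem_bxs_inl, mem_bxs_inl, mem_insert, Sum.inl.injEq]
  · rw [mem_insert, mem_bxs_inr, mem_bxs_inr]
    simp

theorem bxs_col (t : Fin n) : bxs (insert t X) R = bxs X R ∪ bxs {t} ∅ := by
  rw [← bxs_union, union_empty, union_comm, ← insert_eq]

theorem at_zero (hz : ∀ i ∈ R₁, ∀ j ∈ X₂, A i j = 0) (hd : Disjoint X₁ X₂) :
    ∀ i ∈ bxs X₁ R₁, ∀ j ∈ X₂, At A i j = 0 := by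
  rintro (i | ⟨j', s⟩) hi j hj
  · exact hz i (mem_bxs_inl.1 hi) j hj
  · have h1 := mem_bxs_inr.1 hi
    have hne : j ≠ j' := fun h => disjoint_left.1 hd h1 (h ▸ hj)
    cases s with
    | true => exact Pi.single_eq_of_ne hne _
    | false => exact Pi.single_eq_of_ne hne _

/-- The bounds. -/
def bd (L d W : ℕ) : ℕ → ℕ
  | 0 => 24 * W
  | k + 1 => (2 * ((2 * (L * bd L d W k) + 1) ^ d * (2 * (L * bd L d W k) + 1) ^ d)) * (2 * L) +
      (2 * ((2 * (L * bd L d W k) + 1) ^ d * (2 * (L * bd L d W k) + 1) ^ d)) *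
      (2 * ((2 * (L * bd L d W k) + 1) ^ d * (2 * (L * bd L d W k) + 1) ^ d))

theorem bd_ge {L d W : ℕ} (hL : 1 ≤ L) (hd : 1 ≤ d) : ∀ k, 24 * W ≤ bd L d W k
  | 0 => le_rfl
  | k + 1 => by
    have ih := bd_ge (W := W) hL hd k
    rw [bd]
    set b := bd L d W k with hb
    set P := (2 * (L * b) + 1) ^ d with hP
    have hP0 : 1 ≤ P := Nat.one_le_pow _ _ (by omega)
    have h1 : 24 * W ≤ P := by
      rw [hP]
      calc 24 * W ≤ b := ih
        _ ≤ L * b := Nat.le_mul_of_pos_left _ hL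
        _ ≤ (2 * (L * b) + 1) ^ 1 := by rw [pow_one]; omega
        _ ≤ (2 * (L * b) + 1) ^ d := Nat.pow_le_pow_right (by omega) hd
    have h2 : P ≤ P * P := Nat.le_mul_of_pos_left _ (by omega)
    have h3 : 2 * (P * P) ≤ 2 * (P * P) * (2 * L) := Nat.le_mul_of_pos_right _ (by omega)
    omega

theorem det_nst {s s0 L k : ℕ} (h : Nst A s k X R) : X.card + R.card + 1 ≤ L → ∀ p q : ℕ,
    p + q + k ≤ s0 →
    Det (At A) X (bxs X R) p q ((X.card + R.card) * bd L ((s0 + 2) ^ 2) (16 ^ s) k) := by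
  classical
  set d := (s0 + 2) ^ 2 with hd
  set W := 16 ^ s with hW
  have hW1 : 1 ≤ W := Nat.one_le_pow _ _ (by omega)
  have hd1 : 1 ≤ d := Nat.one_le_pow _ _ (by omega)
  induction h with
  | small k X R hs =>
    intro hL p q _
    rcases Nat.eq_zero_or_pos (X.card + R.card) with h0 | h0
    · intro C B
      refine ⟨Fin 0, inferInstance, fun _ => 0, by simp, fun θ ξ θ' ξ' x x' _ _ _ => ?_⟩
      have e : bxs X R = ∅ := by
        rw [← card_eq_zero, card_bxs]; omega
      rw [e]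
      ext i
      rw [mem_tg, mem_tg]
      simp
    · have h1 := det_of_types (A := At A) (X := X) (R := bxs X R) (p := p)
        (q := q) (N := 4 ^ s) fun C B => by
          refine (Ty_le_pow C B).trans ?_
          rw [card_bxs, show (4 : ℕ) = 2 ^ 2 by norm_num, ← pow_mul]
          exact Nat.pow_le_pow_right (by norm_num) (by omega)
      refine h1.mono ?_
      have h2 := bd_ge (L := L) (W := W) (by omega) hd1 k
      have h3 : 4 ^ s * 4 ^ s = W := by rw [hW, ← mul_pow]; norm_num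
      have h4 : (bxs X R).card ≤ 2 * 4 ^ s := by
        rw [card_bxs]
        have : s < 4 ^ s := Nat.lt_pow_self (by norm_num)
        omega
      have h5 : 4 ^ s * (bxs X R).card ≤ 2 * W := by
        calc 4 ^ s * (bxs X R).card ≤ 4 ^ s * (2 * 4 ^ s) := Nat.mul_le_mul_left _ h4
          _ = 2 * W := by rw [← h3]; ring
      have h6 : bd L d W k ≤ (X.card + R.card) * bd L d W k := Nat.le_mul_of_pos_left _ h0
      omega
  | @union k X₁ X₂ R₁ R₂ _ _ hX hR hz1 hz2 ih1 ih2 =>
    intro hL p q hpq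
    rw [card_union_of_disjoint hX, card_union_of_disjoint hR] at hL ⊢
    rw [bxs_union]
    have h1 := Det.union hX (at_zero hz1 hX) (at_zero hz2 hX.symm) (ih1 (by omega) p q hpq)
      (ih2 (by omega) p q hpq)
    refine h1.mono (le_of_eq ?_)
    ring
  | @row k X R r hr _ ih =>
    intro hL p q hpq
    rw [card_insert_of_notMem hr] at hL
    have h1 := ih (by omega) (p + 1) q (by omega)
    set b := bd L d W k with hb
    have hexp : (p + 1 + 1) * q ≤ d := by
      rw [hd, pow_two]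
      exact Nat.mul_le_mul (by omega) (by omega)
    have h2 : ∀ (C : Fin (p + 1) → Fin n → ℝ) (B : Fin q → _ → ℝ),
        (Ty (At A) X (bxs X R) C B).ncard ≤ (2 * (L * b) + 1) ^ d := by
      intro C B
      refine (h1.card C B).trans ?_
      refine (Nat.pow_le_pow_right (by omega) hexp).trans (Nat.pow_le_pow_left ?_ _)
      have : (X.card + R.card) * b ≤ L * b := Nat.mul_le_mul_right _ (by omega)
      omega
    have h3 := det_of_types (A := At A) (X := X) (R := insert (Sum.inl r) (bxs X R)) (p := p)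
      (q := q) (Ty_row bx_bxs (Sum.inl r) h2)
    rw [← bxs_row] at h3
    refine h3.mono ?_
    rw [card_insert_of_notMem hr, bd, card_bxs, card_insert_of_notMem hr]
    set N := 2 * ((2 * (L * b) + 1) ^ d * (2 * (L * b) + 1) ^ d) with hN
    have h4 : N * (R.card + 1 + X.card * 2) ≤ N * (2 * L) := Nat.mul_le_mul_left _ (by omega)
    have h5 : N * (2 * L) + N * N ≤ (X.card + (R.card + 1)) * (N * (2 * L) + N * N) :=
      Nat.le_mul_of_pos_left _ (by omega)
    omega
  | @col k X R t ht _ ih =>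
    intro hL p q hpq
    rw [card_insert_of_notMem ht] at hL
    have h1 := ih (by omega) p (q + 1) (by omega)
    set b := bd L d W k with hb
    have hb24 : 24 ≤ b := by
      have : 24 * W ≤ b := bd_ge (by omega) hd1 k
      omega
    have hexp : (p + 1) * (q + 1) ≤ d := by
      rw [hd, pow_two]
      exact Nat.mul_le_mul (by omega) (by omega)
    have h0 : Det (At A) (∅ : Finset (Fin n)) (bxs {t} (∅ : Finset (Fin m))) p (q + 1) 24 := by
      have h1 := det_of_types (A := At A) (X := (∅ : Finset (Fin n)))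
        (R := bxs {t} (∅ : Finset (Fin m))) (p := p) (q := q + 1) (N := 4) fun C B => by
          refine (Ty_le_pow C B).trans ?_
          rw [card_bxs]; simp
      refine h1.mono ?_
      rw [card_bxs]; simp
    have h2 : Det (At A) X (bxs (insert t X) R) p (q + 1) ((X.card + R.card) * b + 24) := by
      have h3 := Det.union (disjoint_empty_right X) (fun i _ j hj => by simp at hj)
        (fun i hi j hj => by
          rcases i with i | ⟨j', s⟩
          · have := mem_bxs_inl.1 hi; simp at this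
          · have h4 := mem_bxs_inr.1 hi
            rw [mem_singleton] at h4
            have hne : j ≠ j' := fun h => ht (by rw [← h4, ← h]; exact hj)
            cases s with
            | true => exact Pi.single_eq_of_ne hne _
            | false => exact Pi.single_eq_of_ne hne _) h1 h0
      rw [union_empty, ← bxs_col] at h3
      exact h3
    have h3 : ∀ (C : Fin p → Fin n → ℝ) (B : Fin q → _ → ℝ),
        (Ty (At A) (insert t X) (bxs (insert t X) R) C B).ncard ≤
          2 * ((2 * (L * b) + 1) ^ d * (2 * (L * b) + 1) ^ d) := by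
      intro C B
      refine (Set.ncard_le_ncard (Ty_col ht C B) (Ty_finite _ _)).trans ?_
      refine (h2.card _ _).trans ?_
      refine (Nat.pow_le_pow_right (by omega) hexp).trans ?_
      have h4 : (X.card + R.card) * b + 24 ≤ L * b := by
        have h5 : (X.card + R.card + 1) * b ≤ L * b := Nat.mul_le_mul_right _ (by omega)
        rw [Nat.succ_mul] at h5
        omega
      have h5 : (2 * ((X.card + R.card) * b + 24) + 1) ^ d ≤ (2 * (L * b) + 1) ^ d :=
        Nat.pow_le_pow_left (by omega) _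
      have h6 : 1 ≤ (2 * (L * b) + 1) ^ d := Nat.one_le_pow _ _ (by omega)
      have h7 : (2 * (L * b) + 1) ^ d ≤ (2 * (L * b) + 1) ^ d * (2 * (L * b) + 1) ^ d :=
        Nat.le_mul_of_pos_left _ (by omega)
      omega
    have h4 := det_of_types h3
    refine h4.mono ?_
    rw [bd, card_bxs, card_insert_of_notMem ht]
    set N := 2 * ((2 * (L * b) + 1) ^ d * (2 * (L * b) + 1) ^ d) with hN
    have h5 : N * (R.card + (X.card + 1) * 2) ≤ N * (2 * L) := Nat.mul_le_mul_left _ (by omega)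
    have h6 : N * (2 * L) + N * N ≤ (X.card + 1 + R.card) * (N * (2 * L) + N * N) :=
      Nat.le_mul_of_pos_left _ (by omega)
    omega

theorem bd_le {L d W : ℕ} (hL : 2 ≤ L) (hd : 2 ≤ d) (hW : 1 ≤ W) : ∀ k,
    bd L d W k * (2 * L) ^ 3 ≤ (2 * L * W) ^ (6 * (4 * d) ^ k)
  | 0 => by
    rw [bd, pow_zero, mul_one]
    have h1 : 24 ≤ (2 * L) ^ 3 := by
      calc 24 ≤ 4 ^ 3 := by norm_num
        _ ≤ (2 * L) ^ 3 := Nat.pow_le_pow_left (by omega) 3
    have h2 : W ^ 1 ≤ W ^ 6 := Nat.pow_le_pow_right hW (by norm_num)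
    rw [pow_one] at h2
    calc 24 * W * (2 * L) ^ 3 ≤ (2 * L) ^ 3 * W ^ 6 * (2 * L) ^ 3 :=
          Nat.mul_le_mul_right _ (Nat.mul_le_mul h1 h2)
      _ = (2 * L * W) ^ 6 := by ring
  | k + 1 => by
    have ih := bd_le hL hd hW k
    have hb0 : 24 * W ≤ bd L d W k := bd_ge (L := L) (d := d) (by omega) (by omega) k
    have hb : 24 ≤ bd L d W k := by omega
    rw [bd]
    set b := bd L d W k with hbd
    set Q := 2 * L with hQ
    have hQ2 : 2 ≤ Q := by omega
    set P := (2 * (L * b) + 1) ^ d with hP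
    have hP1 : P ≤ (Q ^ 2 * b) ^ d := by
      refine Nat.pow_le_pow_left ?_ d
      have e : 2 * (L * b) = Q * b := by rw [hQ]; ring
      have h1 : 1 ≤ Q * b := Nat.mul_pos (by omega) (by omega)
      have h2 : 2 * (Q * b) ≤ Q * (Q * b) := Nat.mul_le_mul_right _ hQ2
      have e2 : Q ^ 2 * b = Q * (Q * b) := by ring
      rw [e, e2]
      omega
    have hP0 : 1 ≤ P := Nat.one_le_pow _ _ (by omega)
    set N := 2 * (P * P) with hN
    have hN2 : 2 ≤ N := by
      have : 1 ≤ P * P := Nat.mul_pos hP0 hP0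
      omega
    have h1 : N * Q + N * N ≤ Q * (N * N) := by
      -- `Q + N ≤ Q N`
      have h2 : Q + N ≤ Q * N := by nlinarith
      calc N * Q + N * N = N * (Q + N) := by ring
        _ ≤ N * (Q * N) := Nat.mul_le_mul_left _ h2
        _ = Q * (N * N) := by ring
    have h3 : N ≤ Q * ((Q ^ 2 * b) ^ d * (Q ^ 2 * b) ^ d) := by
      rw [hN]
      exact Nat.mul_le_mul hQ2 (Nat.mul_le_mul hP1 hP1)
    calc (N * Q + N * N) * Q ^ 3 ≤ (Q * (N * N)) * Q ^ 3 := Nat.mul_le_mul_right _ h1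
      _ ≤ (Q * ((Q * ((Q ^ 2 * b) ^ d * (Q ^ 2 * b) ^ d)) *
          (Q * ((Q ^ 2 * b) ^ d * (Q ^ 2 * b) ^ d)))) * Q ^ 3 :=
        Nat.mul_le_mul_right _ (Nat.mul_le_mul_left _ (Nat.mul_le_mul h3 h3))
      _ = Q ^ 6 * (Q ^ 2 * b) ^ (4 * d) := by ring
      _ ≤ Q ^ (4 * d) * (Q ^ 2 * b) ^ (4 * d) :=
        Nat.mul_le_mul_right _ (Nat.pow_le_pow_right (by omega) (by omega))
      _ = (b * Q ^ 3) ^ (4 * d) := by rw [← mul_pow]; congr 1; ring
      _ ≤ ((Q * W) ^ (6 * (4 * d) ^ k)) ^ (4 * d) := Nat.pow_le_pow_left ih _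
      _ = (Q * W) ^ (6 * (4 * d) ^ (k + 1)) := by rw [← pow_mul]; congr 1; ring

/-- The number of unique maximisers of a pencil. -/
theorem pencil_bound {s D : ℕ} {b : Fin m → ℝ} {g h : Fin n → ℝ} (hT : Nst A s D univ univ) (N : ℕ)
    (L : ℕ → ℝ) (x : ℕ → Fin n → ℝ) (hinj : ∀ j ≤ N, ∀ k ≤ N, x j = x k → j = k)
    (hx : ∀ k ≤ N, (∀ i, dl (A i) (x k) ≤ b i) ∧ (∀ j, 0 ≤ x k j) ∧
      ∀ y : Fin n → ℝ, (∀ i, dl (A i) y ≤ b i) → (∀ j, 0 ≤ y j) → y ≠ x k →
        dl (g + L k • h) y < dl (g + L k • h) (x k)) :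
    N + 1 ≤ (2 * (m + n + 2) * 16 ^ s) ^ (18 * (2 * D + 10) ^ (2 * D)) := by
  classical
  -- an upper bound for the coordinates
  obtain ⟨M, hM⟩ : ∃ M : ℝ, ∀ k ≤ N, ∀ j, x k j ≤ M := by
    refine ⟨∑ k ∈ range (N + 1), ∑ j, |x k j|, fun k hk j => ?_⟩
    refine (le_abs_self _).trans ?_
    refine (single_le_sum (f := fun j => |x k j|) (fun _ _ => abs_nonneg _) (mem_univ j)).trans ?_
    exact single_le_sum (f := fun k => ∑ j, |x k j|)
      (fun _ _ => sum_nonneg fun _ _ => abs_nonneg _) (mem_range.2 (by omega))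
  set bt : Fin m ⊕ (Fin n × Bool) → ℝ := Sum.elim b fun k => if k.2 then M else 0 with hbt
  set C : Fin 2 → Fin n → ℝ := fun a => if a = 0 then g else h with hC
  set B : Fin 1 → Fin m ⊕ (Fin n × Bool) → ℝ := fun _ => bt with hB
  set θ : ℕ → Fin 2 → ℝ := fun k a => if a = 0 then 1 else L k with hθ
  set ξ : Fin 1 → ℝ := fun _ => 1 with hξ
  have hcC : ∀ k, cm C (θ k) = g + L k • h := by
    intro k
    funext j
    simp only [cm, dl_apply, Fin.sum_univ_two, hC, hθ, if_true, Pi.add_apply, Pi.smul_apply,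
      smul_eq_mul]
    simp
    ring
  have hcB : cm B ξ = bt := by
    funext i
    simp [cm, dl_apply, hB, hξ]
  have hmem : ∀ i : Fin m ⊕ (Fin n × Bool), i ∈ bxs (univ : Finset (Fin n)) (univ : Finset (Fin m)) := by
    rintro (i | ⟨j, s⟩)
    · exact mem_bxs_inl.2 (mem_univ i)
    · exact mem_bxs_inr.2 (mem_univ j)
  have hfe : ∀ y : Fin n → ℝ, Fe (At A) univ (bxs univ univ) bt y ↔
      (∀ i, dl (A i) y ≤ b i) ∧ (∀ j, 0 ≤ y j) ∧ ∀ j, y j ≤ M := by
    intro y
    constructor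
    · rintro ⟨-, h2⟩
      refine ⟨fun i => h2 (Sum.inl i) (hmem _), fun j => ?_, fun j => ?_⟩
      · have h3 : dl (Pi.single j (-1)) y ≤ 0 := h2 (Sum.inr (j, false)) (hmem _)
        rw [dl_single] at h3
        linarith
      · have h3 : dl (Pi.single j 1) y ≤ M := h2 (Sum.inr (j, true)) (hmem _)
        rw [dl_single] at h3
        linarith
    · rintro ⟨h1, h2, h3⟩
      refine ⟨fun j hj => absurd (mem_univ j) hj, ?_⟩
      rintro (i | ⟨j, s⟩) _
      · exact h1 i
      · cases s with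
        | true =>
          change dl (Pi.single j 1) y ≤ M
          rw [dl_single, one_mul]; exact h3 j
        | false =>
          change dl (Pi.single j (-1)) y ≤ 0
          rw [dl_single]
          have := h2 j
          linarith
  have hum : ∀ k ≤ N, Um (At A) univ (bxs univ univ) (cm C (θ k)) (cm B ξ) (x k) := by
    intro k hk
    obtain ⟨h1, h2, h3⟩ := hx k hk
    rw [hcC, hcB]
    refine ⟨(hfe _).2 ⟨h1, h2, hM k hk⟩, fun y hy hne => ?_⟩
    obtain ⟨h4, h5, -⟩ := (hfe y).1 hy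
    exact h3 y h4 h5 hne
  have hcard : N + 1 ≤ (Ty (At A) (univ : Finset (Fin n)) (bxs univ univ) C B).ncard := by
    have h1 : ((range (N + 1) : Finset ℕ) : Set ℕ).ncard = N + 1 := by
      rw [Set.ncard_coe_finset, card_range]
    rw [← h1]
    refine Set.ncard_le_ncard_of_injOn (fun k => tg (At A) (bxs univ univ) (cm B ξ) (x k)) ?_ ?_
      (Ty_finite C B)
    · intro k hk
      rw [mem_coe, mem_range] at hk
      exact ⟨θ k, ξ, x k, hum k (by omega), rfl⟩
    · intro j hj k hk hjk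
      rw [mem_coe, mem_range] at hj hk
      refine hinj j (by omega) k (by omega) ?_
      have h2 := (hum j (by omega)).inj (z := x j - x k) (fun l hl => absurd (mem_univ l) hl)
        fun i hi => by
          have h3 := (mem_tg.1 hi).2
          have h4 : i ∈ tg (At A) (bxs univ univ) (cm B ξ) (x k) := by
            have : tg (At A) (bxs univ univ) (cm B ξ) (x j) =
              tg (At A) (bxs univ univ) (cm B ξ) (x k) := hjk
            rw [← this]; exact hi
          rw [map_sub, h3, (mem_tg.1 h4).2, sub_self]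
      exact sub_eq_zero.1 h2
  set Lc := m + n + 2 with hLc
  set d := (D + 3 + 2) ^ 2 with hd
  have hdet := det_nst (s0 := D + 3) (L := Lc) hT (by simp; omega) 2 1 (by omega)
  have h1 := hdet.card C B
  rw [card_univ, card_univ, Fintype.card_fin, Fintype.card_fin] at h1
  have hd2 : 2 ≤ d := le_trans (by norm_num) (Nat.pow_le_pow_left (show 2 ≤ D + 3 + 2 by omega) 2)
  have hW : 1 ≤ 16 ^ s := Nat.one_le_pow _ _ (by omega)
  have h2 := bd_le (L := Lc) (by omega) hd2 hW D
  have hb0 := bd_ge (L := Lc) (d := d) (W := 16 ^ s) (by omega) (by omega) D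
  rw [← hd] at h1
  set β := bd Lc d (16 ^ s) D with hβ
  have hb : 24 ≤ β := by omega
  have h3 : 2 * ((n + m) * β) + 1 ≤ β * (2 * Lc) ^ 3 := by
    have h4 : 2 * ((n + m) * β) + 1 ≤ β * (2 * Lc) := by
      have : β * (2 * Lc) = 2 * ((n + m) * β) + 4 * β := by rw [hLc]; ring
      omega
    have h5 : (2 * Lc) ^ 1 ≤ (2 * Lc) ^ 3 := Nat.pow_le_pow_right (by omega) (by omega)
    rw [pow_one] at h5
    exact h4.trans (Nat.mul_le_mul_left _ h5)
  have e1 : (2 + 1) * 1 = 3 := rfl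
  rw [e1] at h1
  calc N + 1 ≤ _ := hcard
    _ ≤ (2 * ((n + m) * β) + 1) ^ 3 := h1
    _ ≤ (β * (2 * Lc) ^ 3) ^ 3 := Nat.pow_le_pow_left h3 3
    _ ≤ ((2 * Lc * 16 ^ s) ^ (6 * (4 * d) ^ D)) ^ 3 := Nat.pow_le_pow_left h2 3
    _ = (2 * Lc * 16 ^ s) ^ (18 * (2 * D + 10) ^ (2 * D)) := by
      rw [← pow_mul]
      congr 1
      have e2 : 4 * d = (2 * D + 10) ^ 2 := by rw [hd]; ring
      rw [e2, ← pow_mul]
      ring

end Pool.Agent.X97.IT
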