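import Pool.Agent.X97.IT.Ty
set_option autoImplicit false

/-!
# Insertion of a row
-/

namespace Pool.Agent.X97.IT

open Finset Module

variable {n : ℕ} {ι : Type} {A : ι → Fin n → ℝ} {X : Finset (Fin n)} {R : Finset ι}
  {b : ι → ℝ} {c x y z : Fin n → ℝ}

/-- The polyhedron. -/
def Po (A : ι → Fin n → ℝ) (X : Finset (Fin n)) (R : Finset ι) (b : ι → ℝ) : Set (Fin n → ℝ) :=
  {x | Fe A X R b x}

/-- The coordinates are bounded. -/
def Bx (A : ι → Fin n → ℝ) (X : Finset (Fin n)) (R : Finset ι) : Prop :=
  ∀ j ∈ X, (∃ i ∈ R, ∀ x : Fin n → ℝ, dl (A i) x = x j) ∧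
    ∃ i ∈ R, ∀ x : Fin n → ℝ, dl (A i) x = - x j

theorem convex_Po : Convex ℝ (Po A X R b) := by
  intro x hx y hy s t hs ht hst
  refine ⟨fun j hj => ?_, fun i hi => ?_⟩
  · simp [hx.1 j hj, hy.1 j hj]
  · rw [map_add, map_smul, map_smul, smul_eq_mul, smul_eq_mul]
    have h1 := mul_le_mul_of_nonneg_left (hx.2 i hi) hs
    have h2 := mul_le_mul_of_nonneg_left (hy.2 i hi) ht
    have h3 : s * b i + t * b i = b i := by rw [← add_mul, hst, one_mul]
    linarith

theorem continuous_dl (a : Fin n → ℝ) : Continuous (dl a) :=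
  LinearMap.continuous_of_finiteDimensional _

theorem isClosed_Po : IsClosed (Po A X R b) := by
  have e : Po A X R b = (⋂ j ∈ {j | j ∉ X}, {x | x j = 0}) ∩ ⋂ i ∈ R, {x | dl (A i) x ≤ b i} := by
    ext x
    simp [Po, Fe]
  rw [e]
  refine IsClosed.inter ?_ ?_
  · exact isClosed_biInter fun j _ => isClosed_eq (continuous_apply j) continuous_const
  · exact isClosed_biInter fun i _ => isClosed_le (continuous_dl _) continuous_const

theorem isCompact_Po (hB : Bx A X R) : IsCompact (Po A X R b) := by
  have key : ∀ j, ∃ l u : ℝ, ∀ x ∈ Po A X R b, l ≤ x j ∧ x j ≤ u := by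
    intro j
    by_cases hj : j ∈ X
    · obtain ⟨⟨i, hi, h1⟩, ⟨i', hi', h2⟩⟩ := hB j hj
      refine ⟨-b i', b i, fun x hx => ⟨?_, ?_⟩⟩
      · have := hx.2 i' hi'
        rw [h2] at this
        linarith
      · have := hx.2 i hi
        rwa [h1] at this
    · exact ⟨0, 0, fun x hx => by rw [hx.1 j hj]; exact ⟨le_rfl, le_rfl⟩⟩
  choose l u hlu using key
  exact isCompact_Icc.of_isClosed_subset isClosed_Po (s := Set.Icc l u) fun x hx =>
    ⟨fun j => (hlu j x hx).1, fun j => (hlu j x hx).2⟩

/-- The tight rows of an extreme point. -/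
theorem ext_inj (hx : x ∈ (Po A X R b).extremePoints ℝ) (hz : ∀ j, j ∉ X → z j = 0)
    (hT : ∀ i ∈ tg A R b x, dl (A i) z = 0) : z = 0 := by
  rw [mem_extremePoints_iff_left] at hx
  obtain ⟨hxP, hext⟩ := hx
  have h1 := ev_small (z := z) hxP.2 fun i hi h2 => (hT i (mem_tg.2 ⟨hi, h2⟩)).le
  have h2 := ev_small (z := -z) hxP.2 fun i hi h2 => by
    rw [map_neg, hT i (mem_tg.2 ⟨hi, h2⟩), neg_zero]
  obtain ⟨δ, ⟨h3, h4⟩, h5⟩ := ((h1.and h2).and self_mem_nhdsWithin).exists
  have hδ : (0 : ℝ) < δ := h5
  have h6 := hext (x + δ • z) ⟨fun j hj => by simp [hxP.1 j hj, hz j hj], h3⟩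
    (x + δ • -z) ⟨fun j hj => by simp [hxP.1 j hj, hz j hj], h4⟩
    ⟨1 / 2, 1 / 2, by norm_num, by norm_num, by norm_num, by
      funext j
      simp only [Pi.add_apply, Pi.smul_apply, Pi.neg_apply, smul_eq_mul]
      ring⟩
  rw [add_eq_left, smul_eq_zero] at h6
  exact h6.resolve_left hδ.ne'

theorem ext_finite : ((Po A X R b).extremePoints ℝ).Finite := by
  classical
  refine Set.Finite.of_finite_image (f := tg A R b) ?_ ?_
  · refine (Finset.finite_toSet R.powerset).subset ?_
    rintro _ ⟨x, -, rfl⟩
    rw [mem_coe, mem_powerset]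
    exact fun i hi => (mem_tg.1 hi).1
  · intro x hx y hy hxy
    have h1 : x - y = 0 := ext_inj hx (fun j hj => by
      rw [Pi.sub_apply, hx.1.1 j hj, hy.1.1 j hj, sub_zero]) fun i hi => by
        have h2 := (mem_tg.1 hi).2
        rw [hxy] at hi
        rw [map_sub, h2, (mem_tg.1 hi).2, sub_self]
    exact sub_eq_zero.1 h1

theorem hull_ext (hB : Bx A X R) :
    convexHull ℝ ((Po A X R b).extremePoints ℝ) = Po A X R b := by
  have h := closure_convexHull_extremePoints (isCompact_Po (b := b) hB) convex_Po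
  rwa [(ext_finite.isClosed_convexHull ℝ).closure_eq] at h

theorem max_of_ext (hB : Bx A X R) (g : (Fin n → ℝ) →ₗ[ℝ] ℝ) {u : Fin n → ℝ}
    (h : ∀ v ∈ (Po A X R b).extremePoints ℝ, v ≠ u → g v < g u) :
    ∀ v ∈ Po A X R b, v ≠ u → g v < g u := by
  have hconv : Convex ℝ {v | v = u ∨ g v < g u} := by
    intro v hv w hw s t hs ht hst
    rcases hs.eq_or_lt with rfl | hs'
    · rw [zero_add] at hst
      rw [hst, zero_smul, one_smul, zero_add]; exact hw
    rcases ht.eq_or_lt with rfl | ht'
    · rw [add_zero] at hst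
      rw [hst, zero_smul, one_smul, add_zero]; exact hv
    have hg : s * g u + t * g u = g u := by rw [← add_mul, hst, one_mul]
    have hvg : g v ≤ g u := by
      rcases hv with rfl | hv
      · exact le_rfl
      · exact hv.le
    have hwg : g w ≤ g u := by
      rcases hw with rfl | hw
      · exact le_rfl
      · exact hw.le
    have hle1 := mul_le_mul_of_nonneg_left hvg hs
    have hle2 := mul_le_mul_of_nonneg_left hwg ht
    rcases hv with hv | hv
    · rcases hw with hw | hw
      · left
        rw [hv, hw, ← add_smul, hst, one_smul]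
      · right
        rw [map_add, map_smul, map_smul, smul_eq_mul, smul_eq_mul]
        have := mul_lt_mul_of_pos_left hw ht'
        linarith
    · right
      rw [map_add, map_smul, map_smul, smul_eq_mul, smul_eq_mul]
      have := mul_lt_mul_of_pos_left hv hs'
      linarith
  intro v hv hne
  rw [← hull_ext hB] at hv
  have h1 : v ∈ {v | v = u ∨ g v < g u} := convexHull_min (fun w hw => by
    by_cases e : w = u
    · exact Or.inl e
    · exact Or.inr (h w hw e)) hconv hv
  exact h1.resolve_left hne

/-- The end of the optimal segment. -/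
theorem ray_end (hB : Bx A X R) (hx : x ∈ Po A X R b) {a : Fin n → ℝ} {y0 : ℝ}
    (hzX : ∀ j, j ∉ X → z j = 0) (hzT : ∀ i ∈ tg A R b x, dl (A i) z = 0) (haz : dl a z ≠ 0)
    (hfz : dl (c - y0 • a) z = 0)
    (hmax : ∀ v ∈ Po A X R b, dl (c - y0 • a) v < dl (c - y0 • a) x ∨
      ∃ s : ℝ, v = x + s • z) :
    ∃ s : ℝ, 0 < s ∧ ∃ y' : ℝ, Um A X R (c - y' • a) b (x + s • z) := by
  set f := dl (c - y0 • a) with hf
  set κ := dl a z with hκ
  have hκ2 : 0 < κ * κ := mul_self_pos.2 haz
  have hline : ∀ s : ℝ, f (x + s • z) = f x := fun s => by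
    rw [map_add, map_smul, hfz, smul_zero, add_zero]
  have haline : ∀ s : ℝ, dl a (x + s • z) = dl a x + s * κ := fun s => by
    rw [map_add, map_smul, smul_eq_mul]
  -- the end
  have hFc : IsCompact (Po A X R b ∩ {v | f v = f x}) :=
    (isCompact_Po hB).inter_right (isClosed_eq (continuous_dl _) continuous_const)
  obtain ⟨w, hw, hwmax⟩ := hFc.exists_isMaxOn ⟨x, hx, rfl⟩
    (f := fun v => κ * dl a v) ((continuous_const.mul (continuous_dl a)).continuousOn)
  have hwmax' : ∀ v ∈ Po A X R b, f v = f x → κ * dl a v ≤ κ * dl a w := fun v hv hfv =>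
    hwmax ⟨hv, hfv⟩
  obtain ⟨s, rfl⟩ : ∃ s : ℝ, w = x + s • z := by
    rcases hmax w hw.1 with h | h
    · have h2 : f w = f x := hw.2
      rw [h2] at h
      exact absurd h (lt_irrefl _)
    · exact h
  have hs : 0 < s := by
    obtain ⟨δ, h1, h2⟩ := ((ev_small (z := z) hx.2 fun i hi h2 =>
      (hzT i (mem_tg.2 ⟨hi, h2⟩)).le).and self_mem_nhdsWithin).exists
    have hδ : (0 : ℝ) < δ := h2
    have h3 := hwmax' (x + δ • z) ⟨fun j hj => by simp [hx.1 j hj, hzX j hj], h1⟩ (hline δ)
    rw [haline, haline] at h3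
    have h4 : δ * (κ * κ) ≤ s * (κ * κ) := by linarith
    exact hδ.trans_le (le_of_mul_le_mul_right h4 hκ2)
  refine ⟨s, hs, ?_⟩
  -- the perturbation
  have hev : ∀ᶠ ε : ℝ in nhdsWithin 0 (Set.Ioi 0), ∀ v ∈ (Po A X R b).extremePoints ℝ,
      v ≠ x + s • z → f v + ε * (κ * dl a v) < f (x + s • z) + ε * (κ * dl a (x + s • z)) := by
    rw [Filter.eventually_all_finite ext_finite]
    intro v hv
    by_cases hvw : v = x + s • z
    · exact Filter.Eventually.of_forall fun _ h => absurd hvw h
    rcases hmax v hv.1 with h | ⟨s', rfl⟩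
    · rw [← hline s] at h
      have hc1 : Continuous fun ε : ℝ => f v + ε * (κ * dl a v) := by fun_prop
      have hc2 : Continuous fun ε : ℝ => f (x + s • z) + ε * (κ * dl a (x + s • z)) := by fun_prop
      have h1 : ∀ᶠ ε : ℝ in nhds 0, f v + ε * (κ * dl a v) <
          f (x + s • z) + ε * (κ * dl a (x + s • z)) :=
        hc1.continuousAt.eventually_lt hc2.continuousAt (by simpa using h)
      filter_upwards [h1.filter_mono nhdsWithin_le_nhds] with ε hε _
      exact hε
    · filter_upwards [self_mem_nhdsWithin] with ε hε _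
      have hε' : (0 : ℝ) < ε := hε
      rw [hline, hline]
      have h1 := hwmax' _ hv.1 (hline s')
      have h2 : κ * dl a (x + s' • z) ≠ κ * dl a (x + s • z) := by
        rw [haline, haline]
        intro h3
        have h4 : (s' - s) * (κ * κ) = 0 := by linarith
        rcases mul_eq_zero.1 h4 with h5 | h5
        · exact hvw (by rw [sub_eq_zero.1 h5])
        · exact hκ2.ne' h5
      have h3 := lt_of_le_of_ne h1 h2
      have := mul_lt_mul_of_pos_left h3 hε'
      linarith
  obtain ⟨ε, h1, -⟩ := (hev.and self_mem_nhdsWithin).exists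
  have hg : ∀ v, dl (c - (y0 - ε * κ) • a) v = f v + ε * (κ * dl a v) := by
    intro v
    rw [hf, dl_sub_left, dl_sub_left, dl_smul_left, dl_smul_left]
    ring
  refine ⟨y0 - ε * κ, hw.1, fun v hv hne => ?_⟩
  refine max_of_ext hB (dl (c - (y0 - ε * κ) • a)) (u := x + s • z) (fun v hv hne => ?_) v hv hne
  rw [hg, hg]
  exact h1 v hv hne

/-- A unique maximiser with one more row lies between two unique maximisers. -/
theorem row_split [DecidableEq ι] (hB : Bx A X R) {r : ι} (h : Um A X (insert r R) c b x) :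
    ∃ (y1 y2 : ℝ) (u w : Fin n → ℝ), Um A X R (c - y1 • A r) b u ∧ Um A X R (c - y2 • A r) b w ∧
      tg A R b x = tg A R b u ∩ tg A R b w := by
  classical
  have hxP : x ∈ Po A X R b := ⟨h.1.1, fun i hi => h.1.2 i (mem_insert_of_mem hi)⟩
  have hxr : dl (A r) x ≤ b r := h.1.2 r (mem_insert_self r R)
  by_cases hv : ∀ z : Fin n → ℝ, (∀ j, j ∉ X → z j = 0) →
      (∀ i ∈ tg A R b x, dl (A i) z = 0) → z = 0
  · -- `x` is a vertex without the row
    suffices hs : ∃ y : ℝ, Um A X R (c - y • A r) b x by
      obtain ⟨y, hy⟩ := hs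
      exact ⟨y, y, x, x, hy, hy, (inter_self _).symm⟩
    rcases hxr.lt_or_eq with hlt | heq
    · -- the row is not tight
      refine ⟨0, hxP, fun v hv' hne => ?_⟩
      rw [zero_smul, sub_zero]
      obtain ⟨δ, h1, h2⟩ := ((ev_small (z := v - x) h.1.2 fun i hi h2 => by
        rcases mem_insert.1 hi with rfl | hi
        · rw [h2] at hlt; exact absurd hlt (lt_irrefl _)
        · rw [map_sub, h2]
          have := hv'.2 i hi
          linarith).and self_mem_nhdsWithin).exists
      have hδ : (0 : ℝ) < δ := h2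
      have h3 := h.2 (x + δ • (v - x)) ⟨fun j hj => by simp [h.1.1 j hj, hv'.1 j hj], h1⟩ (by
        intro h4
        rw [add_eq_left, smul_eq_zero] at h4
        rcases h4 with h4 | h4
        · exact hδ.ne' h4
        · exact hne (sub_eq_zero.1 h4))
      rw [map_add, map_smul, smul_eq_mul, map_sub] at h3
      have h4 : 0 < δ * (dl c x - dl c v) := by linarith
      have := (mul_pos_iff_of_pos_left hδ).1 h4
      linarith
    · -- the row is tight
      set E := (ext_finite (A := A) (X := X) (R := R) (b := b)).toFinset with hE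
      have hEm : ∀ {v}, v ∈ E ↔ v ∈ (Po A X R b).extremePoints ℝ := fun {v} => by
        rw [hE, Set.Finite.mem_toFinset]
      set sl : (Fin n → ℝ) → ℝ := fun v => (dl c v - dl c x) / (dl (A r) v - b r) with hsl
      obtain ⟨y, hy1, hy2⟩ := Order.exists_between_finsets
        ((E.filter fun v => b r < dl (A r) v).image sl)
        ((E.filter fun v => dl (A r) v < b r).image sl) (by
          intro s hs s' hs'
          obtain ⟨v, hv1, rfl⟩ := mem_image.1 hs
          obtain ⟨v', hv1', rfl⟩ := mem_image.1 hs'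
          rw [mem_filter, hEm] at hv1 hv1'
          obtain ⟨hvE, hvr⟩ := hv1
          obtain ⟨hvE', hvr'⟩ := hv1'
          have hD1 : 0 < dl (A r) v - b r := by linarith
          have hD2 : 0 < b r - dl (A r) v' := by linarith
          have hD : 0 < dl (A r) v - dl (A r) v' := by linarith
          set s := (b r - dl (A r) v') / (dl (A r) v - dl (A r) v') with hs0
          set t := (dl (A r) v - b r) / (dl (A r) v - dl (A r) v') with ht0
          have hs1 : 0 < s := div_pos hD2 hD
          have ht1 : 0 < t := div_pos hD1 hD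
          have hst : s + t = 1 := by
            rw [hs0, ht0, ← add_div, div_eq_one_iff_eq hD.ne']; ring
          have hzP : s • v + t • v' ∈ Po A X R b := convex_Po hvE.1 hvE'.1 hs1.le ht1.le hst
          have hzr : dl (A r) (s • v + t • v') = b r := by
            rw [map_add, map_smul, map_smul, smul_eq_mul, smul_eq_mul, hs0, ht0]
            field_simp
            ring
          have hne : s • v + t • v' ≠ x := by
            intro h1
            have h2 := hv (v - v') (fun j hj => by
              rw [Pi.sub_apply, hvE.1.1 j hj, hvE'.1.1 j hj, sub_zero]) fun i hi => by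
              obtain ⟨hiR, hib⟩ := mem_tg.1 hi
              rw [← h1, map_add, map_smul, map_smul, smul_eq_mul, smul_eq_mul] at hib
              have a1 := hvE.1.2 i hiR
              have a2 := hvE'.1.2 i hiR
              have a3 : s * (b i - dl (A i) v) + t * (b i - dl (A i) v') = 0 := by
                have : s * b i + t * b i = b i := by rw [← add_mul, hst, one_mul]
                linarith
              have a4 : 0 ≤ s * (b i - dl (A i) v) := mul_nonneg hs1.le (by linarith)
              have a5 : 0 ≤ t * (b i - dl (A i) v') := mul_nonneg ht1.le (by linarith)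
              have a6 : s * (b i - dl (A i) v) = 0 := by linarith
              have a7 : t * (b i - dl (A i) v') = 0 := by linarith
              have a8 := (mul_eq_zero.1 a6).resolve_left hs1.ne'
              have a9 := (mul_eq_zero.1 a7).resolve_left ht1.ne'
              rw [map_sub]
              linarith
            have h3 : v = v' := sub_eq_zero.1 h2
            rw [h3] at hvr
            linarith
          have h1 := h.2 _ ⟨hzP.1, fun i hi => by
            rcases mem_insert.1 hi with rfl | hi
            · exact hzr.le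
            · exact hzP.2 i hi⟩ hne
          rw [map_add, map_smul, map_smul, smul_eq_mul, smul_eq_mul] at h1
          have h2 : s * (dl c v - dl c x) + t * (dl c v' - dl c x) < 0 := by
            have : s * dl c x + t * dl c x = dl c x := by rw [← add_mul, hst, one_mul]
            linarith
          have h3 : (b r - dl (A r) v') * (dl c v - dl c x) +
              (dl (A r) v - b r) * (dl c v' - dl c x) < 0 := by
            have e : (b r - dl (A r) v') * (dl c v - dl c x) +
              (dl (A r) v - b r) * (dl c v' - dl c x) = (dl (A r) v - dl (A r) v') *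
                (s * (dl c v - dl c x) + t * (dl c v' - dl c x)) := by
              rw [hs0, ht0]
              field_simp
            rw [e]
            exact mul_neg_of_pos_of_neg hD h2
          simp only [hsl]
          rw [← neg_sub (b r) (dl (A r) v'), div_neg, ← neg_div, div_lt_div_iff₀ hD1 hD2]
          linarith)
      refine ⟨y, hxP, fun v hv' hne => ?_⟩
      refine max_of_ext hB (dl (c - y • A r)) (u := x) (fun v hvE hne => ?_) v hv' hne
      rw [dl_sub_left, dl_sub_left, dl_smul_left, dl_smul_left, heq]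
      rcases lt_trichotomy (dl (A r) v) (b r) with h1 | h1 | h1
      · have h2 := hy2 (sl v) (mem_image_of_mem _ (mem_filter.2 ⟨hEm.2 hvE, h1⟩))
        simp only [hsl] at h2
        rw [lt_div_iff_of_neg (by linarith)] at h2
        linarith
      · have h2 := h.2 v ⟨hvE.1.1, fun i hi => by
          rcases mem_insert.1 hi with rfl | hi
          · exact h1.le
          · exact hvE.1.2 i hi⟩ hne
        rw [h1]
        linarith
      · have h2 := hy1 (sl v) (mem_image_of_mem _ (mem_filter.2 ⟨hEm.2 hvE, h1⟩))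
        simp only [hsl] at h2
        rw [div_lt_iff₀ (by linarith)] at h2
        linarith
  · -- `x` lies in the interior of an edge
    push Not at hv
    obtain ⟨z, hzX, hzT, hz0⟩ := hv
    have hxr' : dl (A r) x = b r := by
      by_contra hne
      refine hz0 (h.inj hzX fun i hi => hzT i ?_)
      obtain ⟨h1, h2⟩ := mem_tg.1 hi
      rcases mem_insert.1 h1 with rfl | h1
      · exact absurd h2 hne
      · exact mem_tg.2 ⟨h1, h2⟩
    have haz : dl (A r) z ≠ 0 := by
      intro h0
      refine hz0 (h.inj hzX fun i hi => ?_)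
      obtain ⟨h1, h2⟩ := mem_tg.1 hi
      rcases mem_insert.1 h1 with rfl | h1
      · exact h0
      · exact hzT i (mem_tg.2 ⟨h1, h2⟩)
    set y0 := dl c z / dl (A r) z with hy0
    have hfz : dl (c - y0 • A r) z = 0 := by
      rw [dl_sub_left, dl_smul_left, hy0, div_mul_cancel₀ _ haz, sub_self]
    have hmax : ∀ v ∈ Po A X R b, dl (c - y0 • A r) v < dl (c - y0 • A r) x ∨
        ∃ s : ℝ, v = x + s • z := by
      intro v hv
      set κ := dl (A r) (v - x) / dl (A r) z with hκ
      set d := (v - x) - κ • z with hd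
      have hdr : dl (A r) d = 0 := by
        rw [hd, map_sub, map_smul, smul_eq_mul, hκ, div_mul_cancel₀ _ haz, sub_self]
      by_cases hd0 : d = 0
      · right
        refine ⟨κ, ?_⟩
        have := sub_eq_zero.1 hd0
        rw [← this]
        abel
      · left
        obtain ⟨δ, h1, h2⟩ := ((ev_small (z := d) h.1.2 fun i hi h2 => by
          rcases mem_insert.1 hi with rfl | hi
          · exact hdr.le
          · rw [hd, map_sub, map_smul, hzT i (mem_tg.2 ⟨hi, h2⟩), smul_zero, sub_zero, map_sub, h2]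
            have := hv.2 i hi
            linarith).and self_mem_nhdsWithin).exists
        have hδ : (0 : ℝ) < δ := h2
        have h3 := h.2 (x + δ • d) ⟨fun j hj => by
          simp [hd, h.1.1 j hj, hv.1 j hj, hzX j hj], h1⟩ (by
          intro h4
          rw [add_eq_left, smul_eq_zero] at h4
          rcases h4 with h4 | h4
          · exact hδ.ne' h4
          · exact hd0 h4)
        rw [map_add, map_smul, smul_eq_mul] at h3
        have h4 : 0 < δ * (- dl c d) := by linarith
        have h5 := (mul_pos_iff_of_pos_left hδ).1 h4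
        have h6 : dl (c - y0 • A r) v - dl (c - y0 • A r) x = dl c d := by
          rw [← map_sub]
          have e : v - x = d + κ • z := by rw [hd]; abel
          rw [e, map_add, map_smul, hfz, smul_zero, add_zero, dl_sub_left, dl_smul_left, hdr,
            mul_zero, sub_zero]
        linarith
    obtain ⟨s, hs, y1, hw⟩ := ray_end hB hxP hzX hzT haz hfz hmax
    obtain ⟨s', hs', y2, hu⟩ := ray_end (z := -z) hB hxP (fun j hj => by simp [hzX j hj])
      (fun i hi => by rw [map_neg, hzT i hi, neg_zero]) (by rw [map_neg]; exact neg_ne_zero.2 haz)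
      (by rw [map_neg, hfz, neg_zero]) (fun v hv => by
        rcases hmax v hv with h1 | ⟨σ, h1⟩
        · exact Or.inl h1
        · exact Or.inr ⟨-σ, by rw [h1]; simp⟩)
    refine ⟨y1, y2, _, _, hw, hu, ?_⟩
    ext i
    rw [mem_inter, mem_tg, mem_tg, mem_tg]
    constructor
    · rintro ⟨h1, h2⟩
      have h3 := hzT i (mem_tg.2 ⟨h1, h2⟩)
      refine ⟨⟨h1, ?_⟩, ⟨h1, ?_⟩⟩
      · rw [map_add, map_smul, h3, smul_zero, add_zero, h2]
      · rw [map_add, map_smul, map_neg, h3, neg_zero, smul_zero, add_zero, h2]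
    · rintro ⟨⟨h1, h2⟩, ⟨-, h3⟩⟩
      refine ⟨h1, ?_⟩
      rw [map_add, map_smul, smul_eq_mul] at h2
      rw [map_add, map_smul, map_neg, smul_eq_mul] at h3
      have h4 : (s + s') * (dl (A i) x - b i) = 0 := by
        linear_combination s' * h2 + s * h3
      have := (mul_eq_zero.1 h4).resolve_left (by positivity)
      linarith

/-- The types with one more row. -/
theorem Ty_row [DecidableEq ι] {p q N : ℕ} (hB : Bx A X R) (r : ι)
    (hN : ∀ (C : Fin (p + 1) → Fin n → ℝ) (B : Fin q → ι → ℝ), (Ty A X R C B).ncard ≤ N)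
    (C : Fin p → Fin n → ℝ) (B : Fin q → ι → ℝ) :
    (Ty A X (insert r R) C B).ncard ≤ 2 * (N * N) := by
  classical
  set C' : Fin (p + 1) → Fin n → ℝ := Fin.cons (- A r) C with hC'
  set S := Ty A X R C' B with hS
  have hSf : S.Finite := Ty_finite C' B
  have hcm : ∀ (y : ℝ) (θ : Fin p → ℝ),
      cm C' (Fin.cons y θ : Fin (p + 1) → ℝ) = cm C θ - y • A r := by
    intro y θ
    rw [hC', cm_cons]
    funext j
    simp only [Pi.add_apply, Pi.smul_apply, Pi.neg_apply, Pi.sub_apply, smul_eq_mul]
    ring
  set F : (Finset ι × Finset ι) × Bool → Finset ι := fun k =>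
    if k.2 then insert r (k.1.1 ∩ k.1.2) else k.1.1 ∩ k.1.2 with hF
  have hsub : Ty A X (insert r R) C B ⊆ F '' ((S ×ˢ S) ×ˢ Set.univ) := by
    rintro _ ⟨θ, ξ, x, hx, rfl⟩
    obtain ⟨y1, y2, u, w, hu, hw, ht⟩ := row_split hB hx
    have h1 : tg A R (cm B ξ) u ∈ S := ⟨Fin.cons y1 θ, ξ, u, by rw [hcm]; exact hu, rfl⟩
    have h2 : tg A R (cm B ξ) w ∈ S := ⟨Fin.cons y2 θ, ξ, w, by rw [hcm]; exact hw, rfl⟩
    refine ⟨((tg A R (cm B ξ) u, tg A R (cm B ξ) w), decide (dl (A r) x = cm B ξ r)),
      ⟨⟨h1, h2⟩, Set.mem_univ _⟩, ?_⟩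
    simp only [hF]
    rw [← ht]
    by_cases hr : dl (A r) x = cm B ξ r
    · rw [if_pos (by simpa using hr)]
      ext i
      rw [mem_insert, mem_tg, mem_tg, mem_insert]
      constructor
      · rintro (rfl | ⟨h3, h4⟩)
        · exact ⟨Or.inl rfl, hr⟩
        · exact ⟨Or.inr h3, h4⟩
      · rintro ⟨h3 | h3, h4⟩
        · exact Or.inl h3
        · exact Or.inr ⟨h3, h4⟩
    · rw [if_neg (by simpa using hr)]
      ext i
      rw [mem_tg, mem_tg, mem_insert]
      constructor
      · rintro ⟨h3, h4⟩
        exact ⟨Or.inr h3, h4⟩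
      · rintro ⟨h3 | h3, h4⟩
        · rw [h3] at h4; exact absurd h4 hr
        · exact ⟨h3, h4⟩
  have hfin : ((S ×ˢ S) ×ˢ (Set.univ : Set Bool)).Finite := (hSf.prod hSf).prod Set.finite_univ
  refine (Set.ncard_le_ncard hsub (hfin.image F)).trans ((Set.ncard_image_le hfin).trans ?_)
  rw [Set.ncard_prod, Set.ncard_prod, Set.ncard_univ, Nat.card_eq_fintype_card, Fintype.card_bool,
    mul_comm]
  have h1 : S.ncard ≤ N := hN C' B
  exact Nat.mul_le_mul_left 2 (Nat.mul_le_mul h1 h1)

end Pool.Agent.X97.IT
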