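import Mathlib
set_option autoImplicit false

/-!
# The number of sign vectors of linear functionals
-/

namespace Pool.Agent.X97.IT

open Module

theorem sign_comb {s t a b : ℝ} (hs : 0 < s) (ht : 0 < t)
    (h : SignType.sign a = SignType.sign b) : SignType.sign (s * a + t * b) = SignType.sign a := by
  rcases lt_trichotomy a 0 with ha | ha | ha
  · have hb : b < 0 := by
      rw [sign_neg ha] at h
      exact sign_eq_neg_one_iff.1 h.symm
    rw [sign_neg ha, sign_eq_neg_one_iff]
    nlinarith
  · have hb : b = 0 := by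
      rw [ha, sign_zero] at h
      exact sign_eq_zero_iff.1 h.symm
    rw [ha, hb]; simp
  · have hb : 0 < b := by
      rw [sign_pos ha] at h
      exact sign_eq_one_iff.1 h.symm
    rw [sign_pos ha, sign_eq_one_iff]
    positivity

theorem signs_card : ∀ (h : ℕ) (V : Type) [AddCommGroup V] [Module ℝ V] [FiniteDimensional ℝ V]
    (f : Fin h → V →ₗ[ℝ] ℝ),
    (Set.range fun (v : V) (l : Fin h) => SignType.sign (f l v)).ncard ≤
      (2 * h + 1) ^ finrank ℝ V := by
  intro h
  induction h with
  | zero =>
    intro V _ _ _ f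
    rw [Nat.mul_zero, Nat.zero_add, one_pow]
    exact Set.ncard_le_one_iff_subsingleton.2 (fun a _ b _ => Subsingleton.elim _ _)
  | succ h ih =>
    intro V _ _ _ f
    classical
    set g := f (Fin.last h) with hg
    set f' : Fin h → V →ₗ[ℝ] ℝ := fun l => f l.castSucc with hf'
    set S := Set.range fun (v : V) (l : Fin (h + 1)) => SignType.sign (f l v) with hS
    set S' := Set.range fun (v : V) (l : Fin h) => SignType.sign (f' l v) with hS'
    set init : (Fin (h + 1) → SignType) → (Fin h → SignType) := fun σ l => σ l.castSucc with hinit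
    set part : SignType → Set (Fin (h + 1) → SignType) := fun s => {σ | σ ∈ S ∧ σ (Fin.last h) = s}
      with hpart
    have hcard : ∀ s, (part s).ncard = (init '' part s).ncard := by
      intro s
      refine (Set.InjOn.ncard_image ?_).symm
      rintro σ ⟨_, h1⟩ τ ⟨_, h2⟩ h3
      funext l
      refine Fin.lastCases ?_ (fun l => ?_) l
      · rw [h1, h2]
      · exact congrFun h3 l
    have hsub : ∀ s, init '' part s ⊆ S' := by
      rintro s _ ⟨_, ⟨⟨v, rfl⟩, _⟩, rfl⟩
      exact ⟨v, rfl⟩
    have hcov : S ⊆ part 0 ∪ (part 1 ∪ part (-1)) := by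
      intro σ hσ
      rcases hs : σ (Fin.last h) with _ | _ | _
      · exact Or.inl ⟨hσ, hs⟩
      · exact Or.inr (Or.inr ⟨hσ, hs⟩)
      · exact Or.inr (Or.inl ⟨hσ, hs⟩)
    have h1 : S.ncard ≤ (part 0).ncard + ((part 1).ncard + (part (-1)).ncard) := by
      refine (Set.ncard_le_ncard hcov (Set.toFinite _)).trans ((Set.ncard_union_le _ _).trans ?_)
      exact Nat.add_le_add_left (Set.ncard_union_le _ _) _
    by_cases hg0 : g = 0
    · have e1 : part 1 = ∅ := by
        rw [Set.eq_empty_iff_forall_notMem]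
        rintro σ ⟨⟨v, rfl⟩, h2⟩
        have h3 : SignType.sign (g v) = 1 := h2
        rw [hg0] at h3
        simp at h3
      have e2 : part (-1) = ∅ := by
        rw [Set.eq_empty_iff_forall_notMem]
        rintro σ ⟨⟨v, rfl⟩, h2⟩
        have h3 : SignType.sign (g v) = -1 := h2
        rw [hg0] at h3
        simp at h3
      rw [e1, e2, Set.ncard_empty, add_zero, hcard 0] at h1
      refine h1.trans ((Set.ncard_le_ncard (hsub 0) (Set.toFinite _)).trans ((ih V f').trans ?_))
      exact Nat.pow_le_pow_left (by omega) _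
    · -- the kernel
      set fk : Fin h → LinearMap.ker g →ₗ[ℝ] ℝ := fun l => (f' l).domRestrict _ with hfk
      set Sk := Set.range fun (v : LinearMap.ker g) (l : Fin h) => SignType.sign (fk l v) with hSk
      have k0 : init '' part 0 ⊆ Sk := by
        rintro _ ⟨_, ⟨⟨v, rfl⟩, h2⟩, rfl⟩
        have h3 : SignType.sign (g v) = 0 := h2
        exact ⟨⟨v, sign_eq_zero_iff.1 h3⟩, rfl⟩
      have k1 : init '' part 1 ∩ init '' part (-1) ⊆ Sk := by
        rintro _ ⟨⟨_, ⟨⟨v, rfl⟩, h2⟩, rfl⟩, ⟨_, ⟨⟨w, rfl⟩, h3⟩, h4⟩⟩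
        have h2' : 0 < g v := sign_eq_one_iff.1 h2
        have h3' : g w < 0 := sign_eq_neg_one_iff.1 h3
        refine ⟨⟨(-g w) • v + (g v) • w, ?_⟩, ?_⟩
        · rw [LinearMap.mem_ker, map_add, map_smul, map_smul, smul_eq_mul, smul_eq_mul]
          ring
        · funext l
          have h5 : SignType.sign (f' l w) = SignType.sign (f' l v) := congrFun h4 l
          change SignType.sign (f' l ((-g w) • v + (g v) • w)) = SignType.sign (f' l v)
          rw [map_add, map_smul, map_smul, smul_eq_mul, smul_eq_mul]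
          exact sign_comb (by linarith) h2' h5.symm
      have h2 : (part 0).ncard ≤ Sk.ncard := by
        rw [hcard]; exact Set.ncard_le_ncard k0 (Set.toFinite _)
      have h3 : (part 1).ncard + (part (-1)).ncard ≤ S'.ncard + Sk.ncard := by
        rw [hcard, hcard, ← Set.ncard_union_add_ncard_inter _ _ (Set.toFinite _) (Set.toFinite _)]
        exact Nat.add_le_add (Set.ncard_le_ncard (Set.union_subset (hsub _) (hsub _))
          (Set.toFinite _)) (Set.ncard_le_ncard k1 (Set.toFinite _))
      have h4 : S'.ncard ≤ (2 * h + 1) ^ finrank ℝ V := ih V f'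
      have h5 : Sk.ncard ≤ (2 * h + 1) ^ finrank ℝ (LinearMap.ker g) := ih (LinearMap.ker g) fk
      have hrk : finrank ℝ V = finrank ℝ (LinearMap.ker g) + 1 := by
        have h6 := LinearMap.finrank_range_add_finrank_ker g
        have h7 : LinearMap.range g = ⊤ := LinearMap.range_eq_top.2 (LinearMap.surjective hg0)
        rw [h7, finrank_top, finrank_self] at h6
        omega
      rw [hrk] at h4 ⊢
      set e := finrank ℝ (LinearMap.ker g) with he
      have h6 : (2 * h + 1) ^ e ≤ (2 * (h + 1) + 1) ^ e := Nat.pow_le_pow_left (by omega) _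
      calc S.ncard ≤ (2 * h + 1) ^ (e + 1) + 2 * (2 * h + 1) ^ e := by omega
        _ = (2 * (h + 1) + 1) * (2 * h + 1) ^ e := by ring
        _ ≤ (2 * (h + 1) + 1) * (2 * (h + 1) + 1) ^ e := Nat.mul_le_mul_left _ h6
        _ = (2 * (h + 1) + 1) ^ (e + 1) := by ring

/-- The number of sign vectors of a finite family of functionals. -/
theorem signs_le {K : Type} [Fintype K] {V : Type} [AddCommGroup V] [Module ℝ V]
    [FiniteDimensional ℝ V] (f : K → V →ₗ[ℝ] ℝ) :
    (Set.range fun (v : V) (l : K) => SignType.sign (f l v)).ncard ≤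
      (2 * Fintype.card K + 1) ^ finrank ℝ V := by
  classical
  have e := Fintype.equivFin K
  refine le_trans ?_ (signs_card (Fintype.card K) V fun l => f (e.symm l))
  refine Set.ncard_le_ncard_of_injOn (fun σ l => σ (e.symm l)) ?_ ?_ (Set.toFinite _)
  · rintro _ ⟨v, rfl⟩
    exact ⟨v, rfl⟩
  · intro σ _ τ _ h
    funext l
    have := congrFun h (e l)
    simpa using this

end Pool.Agent.X97.IT
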