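import Pool.Agent.X97.IT.Signs
set_option autoImplicit false

/-!
# Types of unique maximisers
-/

namespace Pool.Agent.X97.IT

open Finset Module

/-- The functional with the coefficients `a`. -/
def dl {k : ℕ} (a : Fin k → ℝ) : (Fin k → ℝ) →ₗ[ℝ] ℝ where
  toFun x := ∑ j, a j * x j
  map_add' x y := by simp only [Pi.add_apply, mul_add, sum_add_distrib]
  map_smul' s x := by
    simp only [Pi.smul_apply, smul_eq_mul, RingHom.id_apply, mul_sum]
    exact sum_congr rfl fun j _ => by ring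

theorem dl_apply {k : ℕ} (a x : Fin k → ℝ) : dl a x = ∑ j, a j * x j := rfl

theorem dl_add_left {k : ℕ} (a b x : Fin k → ℝ) : dl (a + b) x = dl a x + dl b x := by
  simp only [dl_apply, Pi.add_apply, add_mul, sum_add_distrib]

theorem dl_smul_left {k : ℕ} (s : ℝ) (a x : Fin k → ℝ) : dl (s • a) x = s * dl a x := by
  simp only [dl_apply, Pi.smul_apply, smul_eq_mul, mul_sum]
  exact sum_congr rfl fun j _ => by ring

theorem dl_sub_left {k : ℕ} (a b x : Fin k → ℝ) : dl (a - b) x = dl a x - dl b x := by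
  simp only [dl_apply, Pi.sub_apply, sub_mul, sum_sub_distrib]

variable {n : ℕ} {ι : Type} {A : ι → Fin n → ℝ} {X X₁ X₂ : Finset (Fin n)}
  {R R₁ R₂ : Finset ι} {b : ι → ℝ} {c x y z : Fin n → ℝ}

/-- `x` is feasible for the columns `X` and the rows `R`. -/
def Fe (A : ι → Fin n → ℝ) (X : Finset (Fin n)) (R : Finset ι) (b : ι → ℝ) (x : Fin n → ℝ) : Prop :=
  (∀ j, j ∉ X → x j = 0) ∧ ∀ i ∈ R, dl (A i) x ≤ b i

/-- `x` is the unique maximiser. -/
def Um (A : ι → Fin n → ℝ) (X : Finset (Fin n)) (R : Finset ι) (c : Fin n → ℝ) (b : ι → ℝ)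
    (x : Fin n → ℝ) : Prop :=
  Fe A X R b x ∧ ∀ y, Fe A X R b y → y ≠ x → dl c y < dl c x

open Classical in
/-- The tight rows. -/
noncomputable def tg (A : ι → Fin n → ℝ) (R : Finset ι) (b : ι → ℝ) (x : Fin n → ℝ) : Finset ι :=
  R.filter fun i => dl (A i) x = b i

theorem mem_tg {i : ι} : i ∈ tg A R b x ↔ i ∈ R ∧ dl (A i) x = b i := by
  classical
  rw [tg, mem_filter]

/-- Small steps. -/
theorem ev_small (hx : ∀ i ∈ R, dl (A i) x ≤ b i)
    (hz : ∀ i ∈ R, dl (A i) x = b i → dl (A i) z ≤ 0) :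
    ∀ᶠ δ : ℝ in nhdsWithin 0 (Set.Ioi 0), ∀ i ∈ R, dl (A i) (x + δ • z) ≤ b i := by
  rw [Filter.eventually_all_finset]
  intro i hi
  rcases (hx i hi).lt_or_eq with h | h
  · have hc : Continuous fun δ : ℝ => dl (A i) x + δ * dl (A i) z := by fun_prop
    have h1 : ∀ᶠ δ : ℝ in nhds 0, dl (A i) x + δ * dl (A i) z < b i :=
      hc.continuousAt.eventually_lt (g := fun _ => b i) continuousAt_const (by simpa using h)
    filter_upwards [h1.filter_mono nhdsWithin_le_nhds] with δ hδ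
    rw [map_add, map_smul, smul_eq_mul]
    exact hδ.le
  · filter_upwards [self_mem_nhdsWithin] with δ hδ
    have hδ' : (0 : ℝ) < δ := hδ
    rw [map_add, map_smul, smul_eq_mul, h]
    have := mul_nonpos_of_nonneg_of_nonpos hδ'.le (hz i hi h)
    linarith

/-- The tight rows determine a unique maximiser. -/
theorem Um.inj (h : Um A X R c b x) (hz : ∀ j, j ∉ X → z j = 0)
    (hT : ∀ i ∈ tg A R b x, dl (A i) z = 0) : z = 0 := by
  by_contra hne
  have h1 : ∀ w : Fin n → ℝ, (∀ i ∈ R, dl (A i) x = b i → dl (A i) w ≤ 0) → w ≠ 0 →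
      (∀ j, j ∉ X → w j = 0) → dl c w < 0 := by
    intro w hw hw0 hwX
    obtain ⟨δ, h2, h3⟩ := ((ev_small h.1.2 hw).and self_mem_nhdsWithin).exists
    have hδ : (0 : ℝ) < δ := h3
    have h4 := h.2 (x + δ • w) ⟨fun j hj => by simp [h.1.1 j hj, hwX j hj], h2⟩ (by
      intro h5
      rw [add_eq_left, smul_eq_zero] at h5
      rcases h5 with h5 | h5
      · exact hδ.ne' h5
      · exact hw0 h5)
    rw [map_add, map_smul, smul_eq_mul] at h4
    have h5 : δ * dl c w < 0 := by linarith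
    by_contra h6
    push Not at h6
    have := mul_nonneg hδ.le h6
    linarith
  have a1 := h1 z (fun i hi h2 => (hT i (mem_tg.2 ⟨hi, h2⟩)).le) hne hz
  have a2 := h1 (-z) (fun i hi h2 => by rw [map_neg, hT i (mem_tg.2 ⟨hi, h2⟩), neg_zero])
    (neg_ne_zero.2 hne) fun j hj => by simp [hz j hj]
  rw [map_neg] at a2
  linarith

/-! ### Parametric families -/

/-- The combination of the vectors `C a` with the coefficients `θ a`. -/
def cm {k : ℕ} {τ : Type} (C : Fin k → τ → ℝ) (θ : Fin k → ℝ) : τ → ℝ := fun j =>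
  dl (fun a => C a j) θ

theorem dl_cm {k : ℕ} (C : Fin k → Fin n → ℝ) (θ : Fin k → ℝ) (x : Fin n → ℝ) :
    dl (cm C θ) x = ∑ a, θ a * dl (C a) x := by
  simp only [dl_apply, cm, sum_mul, mul_sum]
  rw [sum_comm]
  exact sum_congr rfl fun a _ => sum_congr rfl fun j _ => by ring

theorem cm_cons {k : ℕ} {τ : Type} (C : Fin k → τ → ℝ) (θ : Fin k → ℝ) (a : τ → ℝ) (s : ℝ) :
    cm (Fin.cons a C : Fin (k + 1) → τ → ℝ) (Fin.cons s θ : Fin (k + 1) → ℝ) =
      cm C θ + s • a := by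
  funext j
  simp only [cm, dl_apply, Fin.sum_univ_succ, Fin.cons_zero, Fin.cons_succ, Pi.add_apply,
    Pi.smul_apply, smul_eq_mul]
  ring

variable {p q : ℕ}

/-- The monomials in the parameters. -/
def Ps (θ : Fin p → ℝ) (ξ : Fin q → ℝ) : Option (Fin p) × Fin q → ℝ := fun k =>
  (k.1.elim 1 θ) * ξ k.2

/-- The types of the unique maximisers. -/
def Ty (A : ι → Fin n → ℝ) (X : Finset (Fin n)) (R : Finset ι) (C : Fin p → Fin n → ℝ)
    (B : Fin q → ι → ℝ) : Set (Finset ι) :=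
  {T | ∃ θ ξ x, Um A X R (cm C θ) (cm B ξ) x ∧ T = tg A R (cm B ξ) x}

/-- The type is determined by the signs of `h` functionals. -/
def Det (A : ι → Fin n → ℝ) (X : Finset (Fin n)) (R : Finset ι) (p q h : ℕ) : Prop :=
  ∀ (C : Fin p → Fin n → ℝ) (B : Fin q → ι → ℝ), ∃ (K : Type) (_ : Fintype K)
    (H : K → (Option (Fin p) × Fin q → ℝ) →ₗ[ℝ] ℝ), Fintype.card K ≤ h ∧
    ∀ θ ξ θ' ξ' x x', Um A X R (cm C θ) (cm B ξ) x → Um A X R (cm C θ') (cm B ξ') x' →
      (∀ l, SignType.sign (H l (Ps θ ξ)) = SignType.sign (H l (Ps θ' ξ'))) →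
      tg A R (cm B ξ) x = tg A R (cm B ξ') x'

theorem Ty_sub (C : Fin p → Fin n → ℝ) (B : Fin q → ι → ℝ) :
    Ty A X R C B ⊆ (R.powerset : Set (Finset ι)) := by
  classical
  rintro _ ⟨θ, ξ, x, -, rfl⟩
  rw [mem_coe, mem_powerset]
  intro i hi
  exact (mem_tg.1 hi).1

theorem Ty_finite (C : Fin p → Fin n → ℝ) (B : Fin q → ι → ℝ) : (Ty A X R C B).Finite :=
  (Finset.finite_toSet _).subset (Ty_sub C B)

theorem Ty_le_pow (C : Fin p → Fin n → ℝ) (B : Fin q → ι → ℝ) :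
    (Ty A X R C B).ncard ≤ 2 ^ R.card := by
  rw [← card_powerset, ← Set.ncard_coe_finset]
  exact Set.ncard_le_ncard (Ty_sub C B) (Finset.finite_toSet _)

theorem Det.mono {h h' : ℕ} (hd : Det A X R p q h) (hh : h ≤ h') : Det A X R p q h' := by
  intro C B
  obtain ⟨K, hK, H, h1, h2⟩ := hd C B
  exact ⟨K, hK, H, h1.trans hh, h2⟩

/-- The number of types. -/
theorem Det.card {h : ℕ} (hd : Det A X R p q h) (C : Fin p → Fin n → ℝ) (B : Fin q → ι → ℝ) :
    (Ty A X R C B).ncard ≤ (2 * h + 1) ^ ((p + 1) * q) := by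
  classical
  obtain ⟨K, hK, H, h1, h2⟩ := hd C B
  have h3 := signs_le H
  have hrk : finrank ℝ (Option (Fin p) × Fin q → ℝ) = (p + 1) * q := by
    rw [finrank_fintype_fun_eq_card, Fintype.card_prod, Fintype.card_option, Fintype.card_fin,
      Fintype.card_fin]
  rw [hrk] at h3
  refine le_trans ?_ (h3.trans (Nat.pow_le_pow_left (by omega) _))
  have key : ∀ T : Finset ι, ∃ v : Option (Fin p) × Fin q → ℝ, T ∈ Ty A X R C B →
      ∃ θ ξ x, v = Ps θ ξ ∧ Um A X R (cm C θ) (cm B ξ) x ∧ T = tg A R (cm B ξ) x := by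
    intro T
    by_cases hT : T ∈ Ty A X R C B
    · obtain ⟨θ, ξ, x, hx, hT'⟩ := hT
      exact ⟨Ps θ ξ, fun _ => ⟨θ, ξ, x, rfl, hx, hT'⟩⟩
    · exact ⟨0, fun h => absurd h hT⟩
  choose v hv using key
  refine Set.ncard_le_ncard_of_injOn (fun T l => SignType.sign (H l (v T))) ?_ ?_ (Set.toFinite _)
  · intro T _
    exact ⟨v T, rfl⟩
  · intro T hT T' hT' he
    obtain ⟨θ, ξ, x, e1, e2, e3⟩ := hv T hT
    obtain ⟨θ', ξ', x', f1, f2, f3⟩ := hv T' hT'
    rw [e3, f3]
    refine h2 θ ξ θ' ξ' x x' e2 f2 fun l => ?_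
    have := congrFun he l
    simp only at this
    rw [e1, f1] at this
    exact this

/-! ### The refinement -/

/-- The maximiser of a given type is a linear function of the right-hand side. -/
theorem exists_u (C : Fin p → Fin n → ℝ) (B : Fin q → ι → ℝ) (T : Finset ι) :
    ∃ u : (Fin q → ℝ) →ₗ[ℝ] (Fin n → ℝ), T ∈ Ty A X R C B →
      (∀ ξ j, j ∉ X → u ξ j = 0) ∧
      ∀ θ ξ x, Um A X R (cm C θ) (cm B ξ) x → tg A R (cm B ξ) x = T → x = u ξ := by
  classical
  by_cases hT : T ∈ Ty A X R C B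
  swap
  · exact ⟨0, fun h => absurd h hT⟩
  obtain ⟨θ0, ξ0, x0, h0, hT0⟩ := hT
  set L : (Fin n → ℝ) →ₗ[ℝ] (ι → ℝ) × (Fin n → ℝ) := LinearMap.prod
    (LinearMap.pi fun i => if i ∈ T then dl (A i) else 0)
    (LinearMap.pi fun j => if j ∈ X then 0 else LinearMap.proj j) with hL
  have hLa : ∀ x, L x = (fun i => if i ∈ T then dl (A i) x else 0,
      fun j => if j ∈ X then 0 else x j) := by
    intro x
    refine Prod.ext (funext fun i => ?_) (funext fun j => ?_)
    · change (if i ∈ T then dl (A i) else 0 : (Fin n → ℝ) →ₗ[ℝ] ℝ) x = if i ∈ T then dl (A i) x else 0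
      split_ifs <;> rfl
    · change (if j ∈ X then 0 else LinearMap.proj j : (Fin n → ℝ) →ₗ[ℝ] ℝ) x = if j ∈ X then 0 else x j
      split_ifs <;> rfl
  have hinj : LinearMap.ker L = ⊥ := by
    rw [LinearMap.ker_eq_bot']
    intro z hz
    rw [hLa] at hz
    have h1 := congrArg Prod.fst hz
    have h2 := congrArg Prod.snd hz
    refine h0.inj (fun j hj => ?_) fun i hi => ?_
    · have := congrFun h2 j
      simpa [hj] using this
    · have := congrFun h1 i
      rw [← hT0] at hi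
      simpa [hi] using this
  obtain ⟨g, hg⟩ := LinearMap.exists_leftInverse_of_injective L hinj
  have hg' : ∀ x, g (L x) = x := fun x => by
    have := congrArg (fun f => f x) hg
    simpa using this
  -- force the support to be in `X`
  set P : (Fin n → ℝ) →ₗ[ℝ] (Fin n → ℝ) := LinearMap.pi fun j =>
    if j ∈ X then LinearMap.proj j else 0 with hP
  have hPa : ∀ x j, P x j = if j ∈ X then x j else 0 := by
    intro x j
    simp only [hP, LinearMap.pi_apply]
    split_ifs <;> rfl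
  refine ⟨P ∘ₗ g ∘ₗ LinearMap.prod (LinearMap.pi fun i => if i ∈ T then dl (fun a => B a i) else 0) 0,
    fun _ => ⟨fun ξ j hj => ?_, fun θ ξ x hx hxT => ?_⟩⟩
  · rw [LinearMap.comp_apply, hPa, if_neg hj]
  · have e : LinearMap.prod (LinearMap.pi fun i => if i ∈ T then dl (fun a => B a i) else 0)
        (0 : (Fin q → ℝ) →ₗ[ℝ] (Fin n → ℝ)) ξ = L x := by
      rw [hLa]
      refine Prod.ext (funext fun i => ?_) (funext fun j => ?_)
      · change (if i ∈ T then dl (fun a => B a i) else 0 : (Fin q → ℝ) →ₗ[ℝ] ℝ) ξ =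
          if i ∈ T then dl (A i) x else 0
        split_ifs with hi
        · rw [← hxT] at hi
          exact (mem_tg.1 hi).2.symm
        · rfl
      · change (0 : ℝ) = if j ∈ X then 0 else x j
        split_ifs with hj
        · rfl
        · exact (hx.1.1 j hj).symm
    rw [LinearMap.comp_apply, LinearMap.comp_apply, e, hg']
    funext j
    rw [hPa]
    split_ifs with hj
    · rfl
    · exact hx.1.1 j hj

/-- A bound for the number of types gives functionals which determine the type. -/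
theorem det_of_types {N : ℕ}
    (hN : ∀ (C : Fin p → Fin n → ℝ) (B : Fin q → ι → ℝ), (Ty A X R C B).ncard ≤ N) :
    Det A X R p q (N * R.card + N * N) := by
  classical
  intro C B
  choose u hu using exists_u (A := A) (X := X) (R := R) C B
  set τ : Finset (Finset ι) := (Ty_finite C B).toFinset with hτ
  have hτm : ∀ {T}, T ∈ τ ↔ T ∈ Ty A X R C B := fun {T} => by rw [hτ, Set.Finite.mem_toFinset]
  have hτc : τ.card ≤ N := by
    rw [hτ, ← Set.ncard_eq_toFinset_card _ (Ty_finite C B)]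
    exact hN C B
  -- the functionals
  set prN : (Option (Fin p) × Fin q → ℝ) →ₗ[ℝ] (Fin q → ℝ) :=
    LinearMap.pi fun k => LinearMap.proj (none, k) with hprN
  set prA : Fin p → (Option (Fin p) × Fin q → ℝ) →ₗ[ℝ] (Fin q → ℝ) := fun a =>
    LinearMap.pi fun k => LinearMap.proj (some a, k) with hprA
  have eN : ∀ (θ : Fin p → ℝ) (ξ : Fin q → ℝ), prN (Ps θ ξ) = ξ := by
    intro θ ξ
    funext k
    change (1 : ℝ) * ξ k = ξ k
    ring
  have eA : ∀ (θ : Fin p → ℝ) (ξ : Fin q → ℝ) a, prA a (Ps θ ξ) = θ a • ξ := by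
    intro θ ξ a
    funext k
    rfl
  set sl : Finset ι → ι → (Option (Fin p) × Fin q → ℝ) →ₗ[ℝ] ℝ := fun T i =>
    (dl (fun a => B a i) - dl (A i) ∘ₗ u T) ∘ₗ prN with hsl
  have esl : ∀ T i θ ξ, sl T i (Ps θ ξ) = cm B ξ i - dl (A i) (u T ξ) := by
    intro T i θ ξ
    rw [hsl]
    simp only [LinearMap.comp_apply, eN, LinearMap.sub_apply]
    rfl
  set vd : Finset ι → Finset ι → (Option (Fin p) × Fin q → ℝ) →ₗ[ℝ] ℝ := fun T T' =>
    ∑ a, (dl (C a) ∘ₗ (u T - u T')) ∘ₗ prA a with hvd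
  have evd : ∀ T T' θ ξ, vd T T' (Ps θ ξ) = dl (cm C θ) (u T ξ) - dl (cm C θ) (u T' ξ) := by
    intro T T' θ ξ
    rw [hvd]
    simp only [LinearMap.sum_apply, LinearMap.comp_apply, eA, map_smul, LinearMap.sub_apply,
      smul_eq_mul]
    rw [← map_sub, dl_cm]
  refine ⟨(τ × R) ⊕ (τ × τ), inferInstance, Sum.elim (fun k => sl k.1 k.2) fun k => vd k.1 k.2,
    ?_, ?_⟩
  · rw [Fintype.card_sum, Fintype.card_prod, Fintype.card_prod, Fintype.card_coe, Fintype.card_coe]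
    exact Nat.add_le_add (Nat.mul_le_mul_right _ hτc) (Nat.mul_le_mul hτc hτc)
  intro θ ξ θ' ξ' x x' hx hx' hs
  set T := tg A R (cm B ξ) x with hT
  set T' := tg A R (cm B ξ') x' with hT'
  have hTm : T ∈ τ := hτm.2 ⟨θ, ξ, x, hx, rfl⟩
  have hTm' : T' ∈ τ := hτm.2 ⟨θ', ξ', x', hx', rfl⟩
  have ex : x = u T ξ := (hu T (hτm.1 hTm)).2 θ ξ x hx rfl
  have ex' : x' = u T' ξ' := (hu T' (hτm.1 hTm')).2 θ' ξ' x' hx' rfl
  -- the signs of the slacks
  have hsl' : ∀ S ∈ τ, ∀ i ∈ R, SignType.sign (cm B ξ i - dl (A i) (u S ξ)) =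
      SignType.sign (cm B ξ' i - dl (A i) (u S ξ')) := by
    intro S hS i hi
    have := hs (Sum.inl (⟨S, hS⟩, ⟨i, hi⟩))
    simp only [Sum.elim_inl, esl] at this
    exact this
  have hfeas : ∀ S ∈ τ, ∀ ζ ζ' : Fin q → ℝ, (∀ i ∈ R, SignType.sign (cm B ζ i -
      dl (A i) (u S ζ)) = SignType.sign (cm B ζ' i - dl (A i) (u S ζ'))) →
      Fe A X R (cm B ζ) (u S ζ) → Fe A X R (cm B ζ') (u S ζ') ∧
        tg A R (cm B ζ) (u S ζ) = tg A R (cm B ζ') (u S ζ') := by
    intro S hS ζ ζ' h1 h2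
    refine ⟨⟨fun j hj => (hu S (hτm.1 hS)).1 ζ' j hj, fun i hi => ?_⟩, ?_⟩
    · have h3 := h1 i hi
      have h4 : 0 ≤ cm B ζ i - dl (A i) (u S ζ) := sub_nonneg.2 (h2.2 i hi)
      rw [← sign_nonneg_iff, h3, sign_nonneg_iff] at h4
      linarith
    · ext i
      rw [mem_tg, mem_tg]
      refine and_congr_right fun hi => ?_
      have h3 := h1 i hi
      constructor
      · intro h4
        have h5 : cm B ζ i - dl (A i) (u S ζ) = 0 := by rw [h4, sub_self]
        rw [h5, sign_zero] at h3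
        have := sign_eq_zero_iff.1 h3.symm
        linarith
      · intro h4
        have h5 : cm B ζ' i - dl (A i) (u S ζ') = 0 := by rw [h4, sub_self]
        rw [h5, sign_zero] at h3
        have := sign_eq_zero_iff.1 h3
        linarith
  have f1 := hfeas T hTm ξ ξ' (hsl' T hTm) (by rw [← ex]; exact hx.1)
  have f2 := hfeas T' hTm' ξ' ξ (fun i hi => (hsl' T' hTm' i hi).symm) (by
    rw [← ex']; exact hx'.1)
  rw [← ex] at f1
  rw [← ex'] at f2
  by_cases e1 : u T' ξ = x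
  · rw [hT, hT', ← e1]
    exact f2.2.symm
  by_cases e2 : u T ξ' = x'
  · rw [hT, hT', ← e2]
    exact f1.2
  exfalso
  have g1 := hx.2 _ f2.1 e1
  have g2 := hx'.2 _ f1.1 e2
  have g3 := hs (Sum.inr (⟨T, hTm⟩, ⟨T', hTm'⟩))
  simp only [Sum.elim_inr, evd] at g3
  rw [← ex, ← ex'] at g3
  have g4 : 0 < dl (cm C θ) x - dl (cm C θ) (u T' ξ) := by linarith
  rw [sign_pos g4] at g3
  have g5 := sign_eq_one_iff.1 g3.symm
  linarith

/-! ### Unions -/

/-- The restriction to `X`. -/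
def rs (X : Finset (Fin n)) (x : Fin n → ℝ) : Fin n → ℝ := fun j => if j ∈ X then x j else 0

theorem dl_zero_on {a : Fin n → ℝ} (ha : ∀ j ∈ X, a j = 0) (hx : ∀ j, j ∉ X → x j = 0) :
    dl a x = 0 := by
  rw [dl_apply]
  refine sum_eq_zero fun j _ => ?_
  by_cases hj : j ∈ X
  · rw [ha j hj, zero_mul]
  · rw [hx j hj, mul_zero]

theorem rs_add (hd : Disjoint X₁ X₂) (hx : ∀ j, j ∉ X₁ ∪ X₂ → x j = 0) :
    x = rs X₁ x + rs X₂ x := by
  funext j
  rw [Pi.add_apply]
  unfold rs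
  by_cases h1 : j ∈ X₁
  · rw [if_pos h1, if_neg (disjoint_left.1 hd h1), add_zero]
  · by_cases h2 : j ∈ X₂
    · rw [if_neg h1, if_pos h2, zero_add]
    · rw [if_neg h1, if_neg h2, add_zero]
      exact hx j (by rw [mem_union]; tauto)

theorem Um.left (hd : Disjoint X₁ X₂) (h1 : ∀ i ∈ R₁, ∀ j ∈ X₂, A i j = 0)
    (h2 : ∀ i ∈ R₂, ∀ j ∈ X₁, A i j = 0) [DecidableEq ι] (h : Um A (X₁ ∪ X₂) (R₁ ∪ R₂) c b x) :
    Um A X₁ R₁ c b (rs X₁ x) ∧ tg A R₁ b (rs X₁ x) = tg A R₁ b x := by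
  have hsplit := rs_add hd h.1.1
  have hz1 : ∀ j, j ∉ X₁ → rs X₁ x j = 0 := fun j hj => by simp [rs, hj]
  have hz2 : ∀ j, j ∉ X₂ → rs X₂ x j = 0 := fun j hj => by simp [rs, hj]
  have hrow : ∀ i ∈ R₁, dl (A i) (rs X₁ x) = dl (A i) x := by
    intro i hi
    conv_rhs => rw [hsplit]
    rw [map_add, dl_zero_on (h1 i hi) hz2, add_zero]
  refine ⟨⟨⟨hz1, fun i hi => ?_⟩, fun y hy hne => ?_⟩, ?_⟩
  · rw [hrow i hi]
    exact h.1.2 i (mem_union_left _ hi)
  · have h3 := h.2 (y + rs X₂ x) ⟨fun j hj => ?_, fun i hi => ?_⟩ (fun h4 => hne ?_)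
    · rw [hsplit, map_add, map_add] at h3
      have e : rs X₂ (rs X₁ x + rs X₂ x) = rs X₂ x := by rw [← hsplit]
      rw [e] at h3
      linarith
    · rw [mem_union, not_or] at hj
      rw [Pi.add_apply, hy.1 j hj.1, hz2 j hj.2, add_zero]
    · rw [map_add]
      rcases mem_union.1 hi with hi | hi
      · rw [dl_zero_on (h1 i hi) hz2, add_zero]
        exact hy.2 i hi
      · rw [dl_zero_on (h2 i hi) hy.1, zero_add]
        have h5 := h.1.2 i (mem_union_right _ hi)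
        rw [hsplit, map_add, dl_zero_on (h2 i hi) hz1, zero_add] at h5
        exact h5
    · have h6 : y + rs X₂ x = rs X₁ x + rs X₂ x := by rw [← hsplit]; exact h4
      exact add_right_cancel h6
  · ext i
    rw [mem_tg, mem_tg]
    exact and_congr_right fun hi => by rw [hrow i hi]

theorem Det.union [DecidableEq ι] {h₁ h₂ : ℕ} (hd : Disjoint X₁ X₂)
    (hz1 : ∀ i ∈ R₁, ∀ j ∈ X₂, A i j = 0) (hz2 : ∀ i ∈ R₂, ∀ j ∈ X₁, A i j = 0)
    (d1 : Det A X₁ R₁ p q h₁) (d2 : Det A X₂ R₂ p q h₂) :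
    Det A (X₁ ∪ X₂) (R₁ ∪ R₂) p q (h₁ + h₂) := by
  intro C B
  obtain ⟨K₁, _, H₁, c1, e1⟩ := d1 C B
  obtain ⟨K₂, _, H₂, c2, e2⟩ := d2 C B
  refine ⟨K₁ ⊕ K₂, inferInstance, Sum.elim H₁ H₂, by rw [Fintype.card_sum]; omega, ?_⟩
  intro θ ξ θ' ξ' x x' hx hx' hs
  have s1 := hx.left hd hz1 hz2
  have s1' := hx'.left hd hz1 hz2
  have hy : Um A (X₂ ∪ X₁) (R₂ ∪ R₁) (cm C θ) (cm B ξ) x := by
    rw [union_comm X₂, union_comm R₂]; exact hx
  have hy' : Um A (X₂ ∪ X₁) (R₂ ∪ R₁) (cm C θ') (cm B ξ') x' := by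
    rw [union_comm X₂, union_comm R₂]; exact hx'
  have s2 := hy.left hd.symm hz2 hz1
  have s2' := hy'.left hd.symm hz2 hz1
  have t1 := e1 θ ξ θ' ξ' _ _ s1.1 s1'.1 fun l => hs (Sum.inl l)
  have t2 := e2 θ ξ θ' ξ' _ _ s2.1 s2'.1 fun l => hs (Sum.inr l)
  rw [s1.2, s1'.2] at t1
  rw [s2.2, s2'.2] at t2
  ext i
  have u1 := Finset.ext_iff.1 t1 i
  have u2 := Finset.ext_iff.1 t2 i
  rw [mem_tg, mem_tg] at u1 u2 ⊢
  rw [mem_union]
  tauto

/-! ### Insertion of a column -/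

theorem Ty_col {t : Fin n} (ht : t ∉ X) (C : Fin p → Fin n → ℝ) (B : Fin q → ι → ℝ) :
    Ty A (insert t X) R C B ⊆
      Ty A X R C (Fin.cons (fun i => - A i t) B : Fin (q + 1) → ι → ℝ) := by
  rintro _ ⟨θ, ξ, x, hx, rfl⟩
  set x' := Function.update x t 0 with hx'
  have hsplit : ∀ (a y : Fin n → ℝ) (s : ℝ), y t = 0 →
      dl a (Function.update y t s) = a t * s + dl a y := by
    intro a y s hy
    have e : Function.update y t s = y + s • Pi.single t 1 := by
      funext j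
      by_cases hj : j = t
      · subst hj; simp [hy]
      · simp [Function.update_of_ne hj, Pi.single_eq_of_ne hj]
    have e2 : dl a (Pi.single t 1) = a t := by
      rw [dl_apply, sum_eq_single t]
      · simp
      · intro j _ hj; simp [Pi.single_eq_of_ne hj]
      · intro h; exact absurd (mem_univ t) h
    rw [e, map_add, map_smul, smul_eq_mul, e2]
    ring
  have hx't : x' t = 0 := by simp [hx']
  have hxx : Function.update x' t (x t) = x := by simp [hx']
  have hcm : cm (Fin.cons (fun i => - A i t) B : Fin (q + 1) → ι → ℝ)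
      (Fin.cons (x t) ξ : Fin (q + 1) → ℝ) = fun i => cm B ξ i - x t * A i t := by
    rw [cm_cons]
    funext i
    simp only [Pi.add_apply, Pi.smul_apply, smul_eq_mul]
    ring
  have hrow : ∀ a : Fin n → ℝ, dl a x = a t * x t + dl a x' := fun a => by
    conv_lhs => rw [← hxx]
    exact hsplit a x' (x t) hx't
  refine ⟨θ, Fin.cons (x t) ξ, x', ⟨⟨fun j hj => ?_, fun i hi => ?_⟩, fun y hy hne => ?_⟩, ?_⟩
  · by_cases h : j = t
    · rw [h]; exact hx't
    · rw [hx', Function.update_of_ne h]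
      exact hx.1.1 j (by rw [mem_insert]; tauto)
  · rw [hcm]
    have := hx.1.2 i hi
    rw [hrow] at this
    linarith
  · have hyt : y t = 0 := hy.1 t ht
    have h1 := hx.2 (Function.update y t (x t)) ⟨fun j hj => ?_, fun i hi => ?_⟩ fun h => hne ?_
    · rw [hsplit _ _ _ hyt, hrow] at h1
      linarith
    · rw [mem_insert, not_or] at hj
      rw [Function.update_of_ne hj.1]
      exact hy.1 j hj.2
    · rw [hsplit _ _ _ hyt]
      have h2 := hy.2 i hi
      rw [hcm] at h2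
      linarith
    · rw [hx', ← h]
      funext j
      by_cases hj : j = t
      · subst hj; simp [hyt]
      · simp [Function.update_of_ne hj]
  · ext i
    rw [mem_tg, mem_tg, hcm, hrow]
    refine and_congr_right fun _ => ?_
    constructor <;> intro h <;> linarith

end Pool.Agent.X97.IT
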